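import Pool.Agent.H27.Fremlin.Defs

/-!
# The Fremlin tensor product in terms of curried continuous bilinear maps
-/

namespace Pool.Agent.H27.Fremlin

/-- A bounded bilinear map, given in curried form, is positive. -/
def IsPositiveCurried {X Y Z : Type*} [BanachLattice X] [BanachLattice Y] [BanachLattice Z]
    (φ : X →L[ℝ] Y →L[ℝ] Z) : Prop :=
  ∀ x y, 0 ≤ x → 0 ≤ y → 0 ≤ φ x y

/-- The universal property of the Fremlin tensor product, for curried bilinear maps. -/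
def IsFremlinCurried {X Y F : Type} [BanachLattice X] [BanachLattice Y] [BanachLattice F]
    (t : X →L[ℝ] Y →L[ℝ] F) : Prop :=
  IsPositiveCurried t ∧
    ∀ (Z : Type) [BanachLattice Z] (φ : X →L[ℝ] Y →L[ℝ] Z), IsPositiveCurried φ →
      ∃ T : F →L[ℝ] Z, ((∀ u, 0 ≤ u → 0 ≤ T u) ∧ (∀ x y, T (t x y) = φ x y) ∧ ‖T‖ = ‖φ‖) ∧
        ∀ T' : F →L[ℝ] Z, (∀ u, 0 ≤ u → 0 ≤ T' u) → (∀ x y, T' (t x y) = φ x y) → T' = T

variable {X Y Z F : Type} [BanachLattice X] [BanachLattice Y] [BanachLattice Z]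
  [BanachLattice F]

lemma bilinearNorm_eq (φ : X →L[ℝ] Y →L[ℝ] Z) :
    bilinearNorm (fun p : X × Y => φ p.1 p.2) = ‖φ‖ := by
  apply le_antisymm
  · exact csInf_le ⟨0, fun _ h => h.1⟩ ⟨φ.opNorm_nonneg, fun x y => φ.le_opNorm₂ x y⟩
  · refine le_csInf ⟨‖φ‖, φ.opNorm_nonneg, fun x y => φ.le_opNorm₂ x y⟩ ?_
    rintro C ⟨hC, h⟩
    exact φ.opNorm_le_bound₂ hC h

lemma exists_curried {φ : X × Y → Z} (hφ : IsBoundedBilinearMap ℝ φ) :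
    ∃ ψ : X →L[ℝ] Y →L[ℝ] Z, φ = fun p => ψ p.1 p.2 :=
  ⟨hφ.toContinuousLinearMap, by ext p; rfl⟩

lemma isBounded_curried (φ : X →L[ℝ] Y →L[ℝ] Z) :
    IsBoundedBilinearMap ℝ (fun p : X × Y => φ p.1 p.2) := φ.isBoundedBilinearMap

lemma IsFremlinCurried.toUncurried {t : X →L[ℝ] Y →L[ℝ] F} (ht : IsFremlinCurried t) :
    IsFremlinTensor (fun p : X × Y => t p.1 p.2) := by
  refine ⟨⟨isBounded_curried t, ht.1⟩, fun Z _ φ hφ => ?_⟩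
  obtain ⟨ψ, rfl⟩ := exists_curried hφ.1
  obtain ⟨T, ⟨h1, h2, h3⟩, h4⟩ := ht.2 Z ψ hφ.2
  exact ⟨T, ⟨h1, h2⟩, by rw [bilinearNorm_eq, h3], fun T' h => h4 T' h.1 h.2⟩

lemma IsFremlinTensor.toCurried {t : X →L[ℝ] Y →L[ℝ] F}
    (ht : IsFremlinTensor (fun p : X × Y => t p.1 p.2)) : IsFremlinCurried t := by
  refine ⟨ht.1.2, fun Z _ ψ hψ => ?_⟩
  obtain ⟨T, h1, h2, h3⟩ := ht.2 Z (fun p => ψ p.1 p.2) ⟨isBounded_curried ψ, hψ⟩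
  exact ⟨T, ⟨h1.1, h1.2, by rw [h2, bilinearNorm_eq]⟩, fun T' h h' => h3 T' ⟨h, h'⟩⟩

end Pool.Agent.H27.Fremlin
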