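import Mathlib

/-!
# A Hahn-Banach theorem for lattice homomorphisms

Let `p` be a sublinear functional on a vector lattice with `p (x ⊔ y) = max (p x) (p y)`. Then for
each vector `z` there is a linear lattice homomorphism `h ≤ p` with `h z = p z`.
-/

namespace Pool.Agent.H27.Fremlin

open scoped NNReal

variable {V : Type*} [AddCommGroup V] [Module ℝ V] [Lattice V] [IsOrderedAddMonoid V]

/-- sublinear and compatible with suprema -/
structure SubHom (p : V → ℝ) : Prop where
  add_le : ∀ x y, p (x + y) ≤ p x + p y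
  smul : ∀ (t : ℝ) x, 0 ≤ t → p (t • x) = t * p x
  sup : ∀ x y, p (x ⊔ y) = max (p x) (p y)

omit [IsOrderedAddMonoid V] in
lemma SubHom.zero {p : V → ℝ} (hp : SubHom p) : p 0 = 0 := by
  have := hp.smul 0 0 le_rfl
  simpa using this

omit [IsOrderedAddMonoid V] in
lemma SubHom.neg_le {p : V → ℝ} (hp : SubHom p) (x : V) : -p (-x) ≤ p x := by
  have := hp.add_le x (-x)
  rw [add_neg_cancel, hp.zero] at this
  linarith

/-- the modification of `p` in the direction `z` -/
noncomputable def pz (p : V → ℝ) (z : V) (x : V) : ℝ := ⨅ t : ℝ≥0, (p (x + (t : ℝ) • z) - t * p z)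

omit [IsOrderedAddMonoid V] in
lemma SubHom.pz_lower {p : V → ℝ} (hp : SubHom p) (z x : V) (t : ℝ≥0) :
    -p (-x) ≤ p (x + (t : ℝ) • z) - t * p z := by
  have h := hp.add_le (x + (t : ℝ) • z) (-x)
  have e : x + (t : ℝ) • z + -x = (t : ℝ) • z := by abel
  rw [e, hp.smul (t : ℝ) z t.coe_nonneg] at h
  linarith

omit [IsOrderedAddMonoid V] in
lemma SubHom.pz_bdd {p : V → ℝ} (hp : SubHom p) (z x : V) :
    BddBelow (Set.range fun t : ℝ≥0 => p (x + (t : ℝ) • z) - t * p z) :=
  ⟨-p (-x), by rintro _ ⟨t, rfl⟩; exact hp.pz_lower z x t⟩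

omit [IsOrderedAddMonoid V] in
lemma SubHom.pz_le_apply {p : V → ℝ} (hp : SubHom p) (z x : V) (t : ℝ≥0) :
    pz p z x ≤ p (x + (t : ℝ) • z) - t * p z :=
  ciInf_le (hp.pz_bdd z x) t

omit [IsOrderedAddMonoid V] in
lemma SubHom.pz_le {p : V → ℝ} (hp : SubHom p) (z x : V) : pz p z x ≤ p x := by
  simpa using hp.pz_le_apply z x 0

omit [IsOrderedAddMonoid V] in
lemma SubHom.pz_neg {p : V → ℝ} (hp : SubHom p) (z : V) : pz p z (-z) ≤ -p z := by
  have := hp.pz_le_apply z (-z) 1
  simpa [hp.zero] using this

omit [IsOrderedAddMonoid V] in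
lemma SubHom.anti {p : V → ℝ} (hp : SubHom p) (z x : V) {s t : ℝ≥0} (h : s ≤ t) :
    p (x + (t : ℝ) • z) - t * p z ≤ p (x + (s : ℝ) • z) - s * p z := by
  have hst : (0 : ℝ) ≤ t - s := sub_nonneg.mpr h
  have e : x + (t : ℝ) • z = (x + (s : ℝ) • z) + ((t : ℝ) - s) • z := by
    rw [sub_smul]; abel
  have := hp.add_le (x + (s : ℝ) • z) (((t : ℝ) - s) • z)
  rw [← e, hp.smul _ _ hst] at this
  linarith

lemma SubHom.pz_subHom {p : V → ℝ} (hp : SubHom p) (z : V) : SubHom (pz p z) where
  add_le x y := by
    refine le_of_forall_pos_le_add fun ε hε => ?_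
    obtain ⟨s, hs⟩ := exists_lt_of_ciInf_lt
      (show pz p z x < pz p z x + ε / 2 by linarith)
    obtain ⟨t, ht⟩ := exists_lt_of_ciInf_lt
      (show pz p z y < pz p z y + ε / 2 by linarith)
    have h1 := hp.pz_le_apply z (x + y) (s + t)
    have e : x + y + ((s + t : ℝ≥0) : ℝ) • z = (x + (s : ℝ) • z) + (y + (t : ℝ) • z) := by
      push_cast; rw [add_smul]; abel
    have h2 := hp.add_le (x + (s : ℝ) • z) (y + (t : ℝ) • z)
    rw [e] at h1
    push_cast at h1
    linarith
  smul c x hc := by
    lift c to ℝ≥0 using hc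
    rcases eq_or_ne c 0 with rfl | hc0
    · simp only [NNReal.coe_zero, zero_smul, zero_mul]
      unfold pz
      have : (fun t : ℝ≥0 => p (0 + (t : ℝ) • z) - t * p z) = fun _ => 0 := by
        funext t; rw [zero_add, hp.smul (t : ℝ) z t.coe_nonneg]; ring
      rw [this]; simp
    · have hc : (0 : ℝ) < c := by positivity
      apply le_antisymm
      · rw [← div_le_iff₀' hc]
        refine le_ciInf fun t => ?_
        rw [div_le_iff₀' hc]
        have h := hp.pz_le_apply z ((c : ℝ) • x) (c * t)
        have e : (c : ℝ) • x + ((c * t : ℝ≥0) : ℝ) • z = (c : ℝ) • (x + (t : ℝ) • z) := by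
          push_cast; rw [smul_add, smul_smul]
        rw [e, hp.smul _ _ hc.le] at h
        push_cast at h
        linarith
      · refine le_ciInf fun t => ?_
        have h := hp.pz_le_apply z x (c⁻¹ * t)
        have e : (c : ℝ) • x + (t : ℝ) • z
            = (c : ℝ) • (x + ((c⁻¹ * t : ℝ≥0) : ℝ) • z) := by
          push_cast; rw [smul_add, smul_smul, mul_inv_cancel_left₀ hc.ne']
        rw [e, hp.smul _ _ hc.le]
        have h' := mul_le_mul_of_nonneg_left h hc.le
        push_cast at h' ⊢
        have : (c : ℝ) * ((c : ℝ)⁻¹ * (t : ℝ) * p z) = t * p z := by field_simp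
        linarith
  sup x y := by
    apply le_antisymm
    · refine le_of_forall_pos_le_add fun ε hε => ?_
      obtain ⟨s, hs⟩ := exists_lt_of_ciInf_lt
        (show pz p z x < pz p z x + ε by linarith)
      obtain ⟨t, ht⟩ := exists_lt_of_ciInf_lt
        (show pz p z y < pz p z y + ε by linarith)
      have h1 := hp.pz_le_apply z (x ⊔ y) (max s t)
      have e : x ⊔ y + ((max s t : ℝ≥0) : ℝ) • z
          = (x + ((max s t : ℝ≥0) : ℝ) • z) ⊔ (y + ((max s t : ℝ≥0) : ℝ) • z) := sup_add _ _ _
      rw [e, hp.sup, ← max_sub_sub_right] at h1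
      have h2 := hp.anti z x (le_max_left s t)
      have h3 := hp.anti z y (le_max_right s t)
      refine h1.trans ?_
      apply max_le
      · calc _ ≤ _ := h2
          _ ≤ pz p z x + ε := hs.le
          _ ≤ _ := by gcongr; exact le_max_left _ _
      · calc _ ≤ _ := h3
          _ ≤ pz p z y + ε := ht.le
          _ ≤ _ := by gcongr; exact le_max_right _ _
    · have key : ∀ a b : V, a ≤ b → pz p z a ≤ pz p z b := by
        intro a b hab
        refine le_ciInf fun t => ?_
        refine (hp.pz_le_apply z a t).trans ?_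
        have : (a + (t : ℝ) • z) ⊔ (b + (t : ℝ) • z) = b + (t : ℝ) • z := by
          rw [← sup_add, sup_eq_right.mpr hab]
        have h := hp.sup (a + (t : ℝ) • z) (b + (t : ℝ) • z)
        rw [this] at h
        rw [h]
        gcongr
        exact le_max_left _ _
      exact max_le (key _ _ le_sup_left) (key _ _ le_sup_right)

/-- **Hahn-Banach for lattice homomorphisms.** -/
theorem exists_latticeHom (p : V → ℝ) (hp : SubHom p) (z : V) :
    ∃ h : V →ₗ[ℝ] ℝ, (∀ x y, h (x ⊔ y) = max (h x) (h y)) ∧ (∀ x, h x ≤ p x) ∧ h z = p z := by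
  classical
  set p₁ := pz p z with hp₁
  have hp₁s : SubHom p₁ := hp.pz_subHom z
  let s : Set (V → ℝ)ᵒᵈ := {q | SubHom (OrderDual.ofDual q) ∧ OrderDual.ofDual q ≤ p₁}
  obtain ⟨m, hm⟩ : ∃ m, Maximal (· ∈ s) m := by
    apply zorn_le₀
    intro c hcs hc
    rcases c.eq_empty_or_nonempty with rfl | hne
    · exact ⟨OrderDual.toDual p₁, ⟨hp₁s, le_rfl⟩, by simp⟩
    · have : Nonempty c := hne.to_subtype
      let q : V → ℝ := fun x => ⨅ r : c, (OrderDual.ofDual r.1) x
      have hb : ∀ x, BddBelow (Set.range fun r : c => (OrderDual.ofDual r.1) x) := by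
        intro x
        refine ⟨-p₁ (-x), ?_⟩
        rintro _ ⟨r, rfl⟩
        have h1 := (hcs r.2).1.neg_le x
        have h2 := (hcs r.2).2 (-x)
        linarith
      have hle : ∀ (r : c) x, q x ≤ (OrderDual.ofDual r.1) x := fun r x => ciInf_le (hb x) r
      have htot : ∀ r r' : c, ∃ r'' : c, OrderDual.ofDual r''.1 ≤ OrderDual.ofDual r.1 ∧
          OrderDual.ofDual r''.1 ≤ OrderDual.ofDual r'.1 := by
        intro r r'
        rcases hc.total r.2 r'.2 with h | h
        · exact ⟨r', h, le_rfl⟩
        · exact ⟨r, le_rfl, h⟩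
      have hq : SubHom q := by
        refine ⟨fun x y => ?_, fun t x ht => ?_, fun x y => ?_⟩
        · refine le_of_forall_pos_le_add fun ε hε => ?_
          obtain ⟨r, hr⟩ := exists_lt_of_ciInf_lt (show q x < q x + ε / 2 by linarith)
          obtain ⟨r', hr'⟩ := exists_lt_of_ciInf_lt (show q y < q y + ε / 2 by linarith)
          obtain ⟨r'', h1, h2⟩ := htot r r'
          have h3 := hle r'' (x + y)
          have h4 := (hcs r''.2).1.add_le x y
          have h5 := h1 x
          have h6 := h2 y
          linarith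
        · show ⨅ r : c, (OrderDual.ofDual r.1) (t • x) = t * ⨅ r : c, (OrderDual.ofDual r.1) x
          rw [Real.mul_iInf_of_nonneg ht]
          exact iInf_congr fun r => (hcs r.2).1.smul t x ht
        · apply le_antisymm
          · refine le_of_forall_pos_le_add fun ε hε => ?_
            obtain ⟨r, hr⟩ := exists_lt_of_ciInf_lt (show q x < q x + ε by linarith)
            obtain ⟨r', hr'⟩ := exists_lt_of_ciInf_lt (show q y < q y + ε by linarith)
            obtain ⟨r'', h1, h2⟩ := htot r r'
            have h3 := hle r'' (x ⊔ y)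
            rw [(hcs r''.2).1.sup] at h3
            refine h3.trans (max_le ?_ ?_)
            · have := h1 x
              have := le_max_left (q x) (q y)
              linarith
            · have := h2 y
              have := le_max_right (q x) (q y)
              linarith
          · apply max_le
            · refine le_ciInf fun r => (hle r x).trans ?_
              rw [(hcs r.2).1.sup]; exact le_max_left _ _
            · refine le_ciInf fun r => (hle r y).trans ?_
              rw [(hcs r.2).1.sup]; exact le_max_right _ _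
      refine ⟨OrderDual.toDual q, ⟨hq, fun x => ?_⟩, fun r hr => ?_⟩
      · obtain ⟨r⟩ := (inferInstance : Nonempty c)
        exact (hle r x).trans ((hcs r.2).2 x)
      · show q ≤ OrderDual.ofDual r
        exact fun x => hle ⟨r, hr⟩ x
  obtain ⟨⟨hm1, hm2⟩, hmax⟩ := hm
  set h : V → ℝ := OrderDual.ofDual m with hh
  have hodd : ∀ x, h (-x) = -h x := by
    intro x
    have h1 : SubHom (pz h x) := hm1.pz_subHom x
    have h2 : pz h x ≤ h := fun y => hm1.pz_le x y
    have h3 : h ≤ pz h x := hmax (y := OrderDual.toDual (pz h x)) ⟨h1, h2.trans hm2⟩ h2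
    have h4 := (h3 (-x)).trans (hm1.pz_neg x)
    have h5 := hm1.neg_le (-x)
    rw [neg_neg] at h5
    linarith
  have hadd : ∀ x y, h (x + y) = h x + h y := by
    intro x y
    apply le_antisymm (hm1.add_le x y)
    have := hm1.add_le (-x) (-y)
    rw [← neg_add, hodd, hodd, hodd] at this
    linarith
  have hsmul : ∀ (t : ℝ) x, h (t • x) = t * h x := by
    intro t x
    rcases le_total 0 t with ht | ht
    · exact hm1.smul t x ht
    · have := hm1.smul (-t) x (by linarith)
      rw [neg_smul, hodd] at this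
      linarith
  refine ⟨{ toFun := h, map_add' := hadd, map_smul' := hsmul }, hm1.sup, fun x => ?_, ?_⟩
  · exact (hm2 x).trans (hp.pz_le z x)
  · show h z = p z
    apply le_antisymm ((hm2 z).trans (hp.pz_le z z))
    have h1 := (hm2 (-z)).trans (hp.pz_neg z)
    rw [hodd] at h1
    linarith

end Pool.Agent.H27.Fremlin
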