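import Pool.Agent.H27.Fremlin.Defs
import Pool.Agent.H27.Fremlin.HahnBanach

/-!
# Functional calculus in Banach lattices

For `0 ≤ v a ≤ e` in a Banach lattice there is a linear lattice homomorphism from the continuous
functions on the cube which sends `1` to `e` and the coordinates to the `v a`.
-/

namespace Pool.Agent.H27.Fremlin

open scoped unitInterval

section basic

variable {E : Type*} [BanachLattice E]

lemma smul_sup_of_nonneg {c : ℝ} (hc : 0 ≤ c) (x y : E) : c • (x ⊔ y) = c • x ⊔ c • y := by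
  rcases hc.eq_or_lt with rfl | hc
  · simp
  · exact (OrderIso.smulRight (β := E) hc).map_sup x y

lemma smul_inf_of_nonneg {c : ℝ} (hc : 0 ≤ c) (x y : E) : c • (x ⊓ y) = c • x ⊓ c • y := by
  rcases hc.eq_or_lt with rfl | hc
  · simp
  · exact (OrderIso.smulRight (β := E) hc).map_inf x y

lemma abs_smul_of_nonneg {c : ℝ} (hc : 0 ≤ c) (x : E) : |c • x| = c • |x| := by
  unfold abs
  rw [smul_sup_of_nonneg hc, smul_neg]

lemma abs_smul_eq (c : ℝ) (x : E) : |c • x| = |c| • |x| := by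
  rcases le_total 0 c with hc | hc
  · rw [abs_smul_of_nonneg hc, abs_of_nonneg hc]
  · have : c • x = (-c) • (-x) := by rw [neg_smul_neg]
    rw [this, abs_smul_of_nonneg (by linarith), abs_neg, abs_of_nonpos hc]

lemma le_smul_of_forall {z e : E} {c : ℝ} (h : ∀ ε : ℝ, 0 < ε → z ≤ (c + ε) • e) : z ≤ c • e := by
  have h1 : Filter.Tendsto (fun n : ℕ => (c + 1 / ((n : ℝ) + 1)) • e) Filter.atTop
      (nhds (c • e)) := by
    have := (tendsto_const_nhds (x := c)).add tendsto_one_div_add_atTop_nhds_zero_nat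
    rw [add_zero] at this
    exact this.smul_const e
  exact ge_of_tendsto' h1 fun n => h _ (by positivity)

end basic

variable {Z : Type*} [BanachLattice Z]

/-- the principal ideal of `e` -/
def PI (e : Z) : Submodule ℝ Z where
  carrier := {z | ∃ t : ℝ, |z| ≤ t • e}
  add_mem' := by
    rintro a b ⟨s, hs⟩ ⟨t, ht⟩
    exact ⟨s + t, (abs_add_le a b).trans (by rw [add_smul]; exact add_le_add hs ht)⟩
  zero_mem' := ⟨0, by simp⟩
  smul_mem' := by
    rintro c z ⟨t, ht⟩
    exact ⟨|c| * t, by rw [abs_smul_eq, mul_smul]; exact smul_le_smul_of_nonneg_left ht (abs_nonneg c)⟩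

lemma mem_PI {e z : Z} {s t : ℝ} (h1 : s • e ≤ z) (h2 : z ≤ t • e) (he : 0 ≤ e) : z ∈ PI e := by
  refine ⟨max t (-s), abs_le'.mpr ⟨h2.trans ?_, ?_⟩⟩
  · exact smul_le_smul_of_nonneg_right (le_max_left _ _) he
  · have : -z ≤ (-s) • e := by rw [neg_smul]; exact neg_le_neg h1
    exact this.trans (smul_le_smul_of_nonneg_right (le_max_right _ _) he)

lemma mem_PI_sup {e x y : Z} (hx : x ∈ PI e) (hy : y ∈ PI e) : x ⊔ y ∈ PI e := by
  obtain ⟨s, hs⟩ := hx
  obtain ⟨t, ht⟩ := hy
  refine ⟨s + t, ?_⟩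
  rw [add_smul]
  have h : |x ⊔ y| ≤ |x| + |y| := by
    apply abs_le'.mpr ⟨?_, ?_⟩
    · apply sup_le
      · exact (le_abs_self x).trans (le_add_of_nonneg_right (abs_nonneg y))
      · exact (le_abs_self y).trans (le_add_of_nonneg_left (abs_nonneg x))
    · rw [neg_sup]
      exact inf_le_left.trans ((neg_le_abs x).trans (le_add_of_nonneg_right (abs_nonneg y)))
  exact h.trans (add_le_add hs ht)

lemma mem_PI_inf {e x y : Z} (hx : x ∈ PI e) (hy : y ∈ PI e) : x ⊓ y ∈ PI e := by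
  have h : x ⊓ y = -((-x) ⊔ (-y)) := by rw [neg_sup, neg_neg, neg_neg]
  rw [h]
  exact neg_mem (mem_PI_sup (neg_mem hx) (neg_mem hy))

noncomputable instance (e : Z) : Lattice (PI e) :=
  Subtype.lattice (fun _ _ hx hy => mem_PI_sup hx hy) (fun _ _ hx hy => mem_PI_inf hx hy)

instance (e : Z) : IsOrderedAddMonoid (PI e) where
  add_le_add_left a b h c := by
    show (a : Z) + c ≤ b + c
    exact add_le_add_left h _

lemma coe_sup {e : Z} (x y : PI e) : ((x ⊔ y : PI e) : Z) = x ⊔ y := rfl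

lemma coe_inf {e : Z} (x y : PI e) : ((x ⊓ y : PI e) : Z) = x ⊓ y := rfl

/-- the gauge -/
noncomputable def p₀ (e : Z) (z : PI e) : ℝ := sInf {t : ℝ | (z : Z) ≤ t • e}

lemma p₀_le_iff {e : Z} (he : 0 ≤ e) (hne : e ≠ 0) (z : PI e) (t : ℝ) :
    p₀ e z ≤ t ↔ (z : Z) ≤ t • e := by
  obtain ⟨s, hs⟩ := z.2
  have hbdd : BddBelow {t : ℝ | (z : Z) ≤ t • e} := by
    refine ⟨-s, fun t ht => ?_⟩
    by_contra hlt
    rw [not_le] at hlt
    have h1 : -(z : Z) ≤ s • e := (neg_le_abs _).trans hs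
    have h2 : (0 : Z) ≤ (s + t) • e := by
      rw [add_smul]
      have := add_le_add h1 (show (z : Z) ≤ t • e from ht)
      simpa using this
    have h3 : (s + t) • e ≤ 0 := smul_nonpos_of_nonpos_of_nonneg (by linarith) he
    have h4 : (s + t) • e = 0 := le_antisymm h3 h2
    rcases smul_eq_zero.mp h4 with h | h
    · linarith
    · exact hne h
  have hnon : {t : ℝ | (z : Z) ≤ t • e}.Nonempty := ⟨s, (le_abs_self _).trans hs⟩
  constructor
  · intro h
    have h1 : (z : Z) ≤ (p₀ e z) • e := by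
      apply le_smul_of_forall
      intro ε hε
      obtain ⟨r, hr, hr'⟩ := exists_lt_of_csInf_lt hnon (show sInf _ < p₀ e z + ε by
        show p₀ e z < _; linarith)
      exact hr.trans (smul_le_smul_of_nonneg_right hr'.le he)
    exact h1.trans (smul_le_smul_of_nonneg_right h he)
  · intro h
    exact csInf_le hbdd h

lemma p₀_subHom {e : Z} (he : 0 ≤ e) (hne : e ≠ 0) : SubHom (p₀ e) where
  add_le x y := by
    rw [p₀_le_iff he hne, add_smul]
    exact add_le_add ((p₀_le_iff he hne x _).mp le_rfl) ((p₀_le_iff he hne y _).mp le_rfl)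
  smul t x ht := by
    rcases ht.eq_or_lt with rfl | ht
    · rw [zero_smul, zero_mul]
      apply le_antisymm
      · rw [p₀_le_iff he hne]; simp
      · by_contra h
        rw [not_le] at h
        have h1 := (p₀_le_iff he hne (0 : PI e) _).mp (le_refl (p₀ e 0))
        have h3 : (p₀ e (0 : PI e)) • e ≤ 0 := smul_nonpos_of_nonpos_of_nonneg h.le he
        have h4 : (p₀ e (0 : PI e)) • e = 0 := le_antisymm h3 h1
        rcases smul_eq_zero.mp h4 with h | h
        · linarith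
        · exact hne h
    · refine eq_of_forall_ge_iff fun s => ?_
      rw [p₀_le_iff he hne, ← le_div_iff₀' ht, p₀_le_iff he hne]
      show t • (x : Z) ≤ s • e ↔ _
      have : s • e = t • ((s / t) • e) := by rw [smul_smul, mul_div_cancel₀ _ ht.ne']
      rw [this]
      exact smul_le_smul_iff_of_pos_left ht
  sup x y := by
    refine eq_of_forall_ge_iff fun s => ?_
    rw [p₀_le_iff he hne, max_le_iff, p₀_le_iff he hne, p₀_le_iff he hne]
    exact sup_le_iff

/-- the unit of the principal ideal -/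
def eI (e : Z) (he : 0 ≤ e) : PI e := ⟨e, 1, by rw [one_smul, abs_of_nonneg he]⟩

/-- normalised real lattice homomorphisms on the principal ideal of `e` -/
structure Hom (e : Z) (he : 0 ≤ e) where
  h : PI e →ₗ[ℝ] ℝ
  sup : ∀ x y, h (x ⊔ y) = max (h x) (h y)
  unit : h (eI e he) = 1

lemma Hom.mono {e : Z} {he : 0 ≤ e} (h : Hom e he) {x y : PI e} (hxy : (x : Z) ≤ y) :
    h.h x ≤ h.h y := by
  have : x ⊔ y = y := Subtype.ext (sup_eq_right.mpr hxy)
  have h1 := h.sup x y
  rw [this] at h1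
  rw [h1]; exact le_max_left _ _

lemma Hom.inf {e : Z} {he : 0 ≤ e} (h : Hom e he) (x y : PI e) :
    h.h (x ⊓ y) = min (h.h x) (h.h y) := by
  have e1 : x ⊓ y = -((-x) ⊔ (-y)) := by rw [neg_sup, neg_neg, neg_neg]
  rw [e1, map_neg, h.sup, map_neg, map_neg]
  rw [max_neg_neg, neg_neg]

lemma le_of_forall_hom {e : Z} (he : 0 ≤ e) (hne : e ≠ 0) {z : PI e} {c : ℝ}
    (h : ∀ h : Hom e he, h.h z ≤ c) : (z : Z) ≤ c • e := by
  obtain ⟨k, hk1, hk2, hk3⟩ := exists_latticeHom (p₀ e) (p₀_subHom he hne) z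
  have h1 : k (eI e he) ≤ 1 := (hk2 _).trans ((p₀_le_iff he hne _ _).mpr (by
    show e ≤ _; rw [one_smul]))
  have h2 : k (-(eI e he)) ≤ -1 := (hk2 _).trans ((p₀_le_iff he hne _ _).mpr (by
    show -e ≤ _; rw [neg_smul, one_smul]))
  rw [map_neg] at h2
  have h3 := h ⟨k, hk1, by linarith⟩
  rw [← p₀_le_iff he hne, ← hk3]
  exact h3

lemma ge_of_forall_hom {e : Z} (he : 0 ≤ e) (hne : e ≠ 0) {z : PI e} {c : ℝ}
    (h : ∀ h : Hom e he, c ≤ h.h z) : c • e ≤ (z : Z) := by
  have := le_of_forall_hom he hne (z := -z) (c := -c) fun k => by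
    rw [map_neg]; exact neg_le_neg (h k)
  rw [neg_smul] at this
  exact neg_le_neg_iff.mp this

lemma eq_of_forall_hom {e : Z} (he : 0 ≤ e) (hne : e ≠ 0) {z w : PI e}
    (h : ∀ h : Hom e he, h.h z = h.h w) : z = w := by
  have h1 := le_of_forall_hom he hne (z := z - w) (c := 0) fun k => by
    rw [map_sub, h k, sub_self]
  have h2 := ge_of_forall_hom he hne (z := z - w) (c := 0) fun k => by
    rw [map_sub, h k, sub_self]
  rw [zero_smul] at h1 h2
  have h3 : ((z - w : PI e) : Z) = 0 := le_antisymm h1 h2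
  exact sub_eq_zero.mp (Subtype.ext h3)

/-- the cube with index set `A` -/
abbrev Cube (A : Type*) := A → I

/-- the coordinate functions on the cube -/
def coord {A : Type*} (a : A) : C(Cube A, ℝ) := ⟨fun s => (s a : ℝ), by fun_prop⟩

/-- A closed vector sublattice of the continuous functions on the cube which contains the
constants and the coordinates is everything. -/
lemma cube_induction {A : Type*} {D : Set C(Cube A, ℝ)} (hD : IsClosed D)
    (hsup : ∀ f ∈ D, ∀ g ∈ D, f ⊔ g ∈ D) (hinf : ∀ f ∈ D, ∀ g ∈ D, f ⊓ g ∈ D)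
    (hadd : ∀ f ∈ D, ∀ g ∈ D, f + g ∈ D) (hsmul : ∀ (c : ℝ), ∀ f ∈ D, c • f ∈ D)
    (h1 : 1 ∈ D) (hcoord : ∀ a, coord a ∈ D) (f : C(Cube A, ℝ)) : f ∈ D := by
  have hD2 : closure D = ⊤ := by
    apply ContinuousMap.sublattice_closure_eq_top
    · exact ⟨_, h1⟩
    · exact fun f hf g hg => hinf f hf g hg
    · exact fun f hf g hg => hsup f hf g hg
    · intro u x y
      by_cases hxy : x = y
      · subst hxy
        exact ⟨_, hsmul (u x) _ h1, by simp, by simp⟩
      · obtain ⟨a, ha⟩ : ∃ a, x a ≠ y a := by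
          by_contra hcon
          exact hxy (funext fun a => by by_contra h; exact hcon ⟨a, h⟩)
        have ha' : (x a : ℝ) - (y a : ℝ) ≠ 0 := by
          intro h
          exact ha (Subtype.ext (by linarith))
        refine ⟨((u x - u y) / ((x a : ℝ) - y a)) • coord a
          + (u y - (u x - u y) / ((x a : ℝ) - y a) * y a) • (1 : C(Cube A, ℝ)),
          hadd _ (hsmul _ _ (hcoord a)) _ (hsmul _ _ h1), ?_, ?_⟩
        · simp only [ContinuousMap.add_apply, ContinuousMap.smul_apply, ContinuousMap.one_apply,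
            coord, ContinuousMap.coe_mk, smul_eq_mul]
          field_simp
          ring
        · simp only [ContinuousMap.add_apply, ContinuousMap.smul_apply, ContinuousMap.one_apply,
            coord, ContinuousMap.coe_mk, smul_eq_mul]
          ring
  have hD3 : f ∈ closure D := by rw [hD2]; trivial
  rwa [hD.closure_eq] at hD3

section calculus

variable {A : Type*} {e : Z} (he : 0 ≤ e) (hne : e ≠ 0) (v : A → Z) (hv0 : ∀ a, 0 ≤ v a)
  (hv1 : ∀ a, v a ≤ e)

/-- the element `v a` of the principal ideal -/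
def vI (a : A) : PI e := ⟨v a, mem_PI (s := 0) (t := 1) (by simpa using hv0 a)
  (by simpa using hv1 a) ((hv0 a).trans (hv1 a))⟩

/-- the point of the cube attached to a lattice homomorphism -/
def pt (h : Hom e he) : Cube A := fun a =>
  ⟨h.h (vI v hv0 hv1 a), by
    constructor
    · have : h.h 0 ≤ h.h (vI v hv0 hv1 a) := h.mono (hv0 a)
      rwa [map_zero] at this
    · have : h.h (vI v hv0 hv1 a) ≤ h.h (eI e he) := h.mono (hv1 a)
      rwa [h.unit] at this⟩

/-- `z` is the value of the functional calculus at `f` -/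
def Rel (f : C(Cube A, ℝ)) (z : PI e) : Prop := ∀ h : Hom e he, h.h z = f (pt he v hv0 hv1 h)

variable {v}

lemma Rel.sup {f g : C(Cube A, ℝ)} {z w : PI e} (h1 : Rel he v hv0 hv1 f z)
    (h2 : Rel he v hv0 hv1 g w) : Rel he v hv0 hv1 (f ⊔ g) (z ⊔ w) := fun h => by
  rw [h.sup, h1 h, h2 h]; rfl

lemma Rel.inf {f g : C(Cube A, ℝ)} {z w : PI e} (h1 : Rel he v hv0 hv1 f z)
    (h2 : Rel he v hv0 hv1 g w) : Rel he v hv0 hv1 (f ⊓ g) (z ⊓ w) := fun h => by
  rw [h.inf, h1 h, h2 h]; rfl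

lemma Rel.add {f g : C(Cube A, ℝ)} {z w : PI e} (h1 : Rel he v hv0 hv1 f z)
    (h2 : Rel he v hv0 hv1 g w) : Rel he v hv0 hv1 (f + g) (z + w) := fun h => by
  rw [map_add, h1 h, h2 h]; rfl

lemma Rel.smul {f : C(Cube A, ℝ)} {z : PI e} (c : ℝ) (h1 : Rel he v hv0 hv1 f z) :
    Rel he v hv0 hv1 (c • f) (c • z) := fun h => by
  rw [map_smul, h1 h]; rfl

lemma Rel.one : Rel he v hv0 hv1 1 (eI e he) := fun h => by
  rw [h.unit]; rfl

lemma Rel.coord (a : A) : Rel he v hv0 hv1 (coord a) (vI v hv0 hv1 a) := fun _ => rfl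

include hne in
lemma Rel.unique {f : C(Cube A, ℝ)} {z w : PI e} (h1 : Rel he v hv0 hv1 f z)
    (h2 : Rel he v hv0 hv1 f w) : z = w :=
  eq_of_forall_hom he hne fun h => by rw [h1 h, h2 h]

include hne in
lemma Rel.le {f : C(Cube A, ℝ)} {z : PI e} (h1 : Rel he v hv0 hv1 f z) {c : ℝ}
    (hf : ∀ s, f s ≤ c) : (z : Z) ≤ c • e :=
  le_of_forall_hom he hne fun h => by rw [h1 h]; exact hf _

include hne in
lemma Rel.ge {f : C(Cube A, ℝ)} {z : PI e} (h1 : Rel he v hv0 hv1 f z) {c : ℝ}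
    (hf : ∀ s, c ≤ f s) : c • e ≤ (z : Z) :=
  ge_of_forall_hom he hne fun h => by rw [h1 h]; exact hf _

include hne in
lemma Rel.abs_sub_le {f g : C(Cube A, ℝ)} {z w : PI e} (h1 : Rel he v hv0 hv1 f z)
    (h2 : Rel he v hv0 hv1 g w) : |(z : Z) - w| ≤ ‖f - g‖ • e := by
  have h3 : Rel he v hv0 hv1 (f - g) (z - w) := by
    have := h1.add he hv0 hv1 (h2.smul he hv0 hv1 (-1))
    simpa [sub_eq_add_neg] using this
  apply abs_le'.mpr ⟨?_, ?_⟩
  · exact h3.le he hne hv0 hv1 fun s => (le_abs_self _).trans ((f - g).norm_coe_le_norm s)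
  · have h4 := h3.ge he hne hv0 hv1 (c := -‖f - g‖) fun s =>
      (abs_le.mp ((f - g).norm_coe_le_norm s)).1
    rw [neg_smul] at h4
    have h5 : -((z : Z) - w) ≤ -(-(‖f - g‖ • e)) := neg_le_neg h4
    rwa [neg_neg] at h5

include hne in
/-- The functional calculus is everywhere defined. -/
lemma exists_rel (f : C(Cube A, ℝ)) : ∃ z : PI e, Rel he v hv0 hv1 f z := by
  let D : Set C(Cube A, ℝ) := {f | ∃ z : PI e, Rel he v hv0 hv1 f z}
  have hD : IsClosed D := by
    rw [← isSeqClosed_iff_isClosed]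
    intro F g hF hlim
    choose z hz using hF
    have hb : ∀ n m, ‖(z n : Z) - z m‖ ≤ ‖F n - F m‖ * ‖e‖ := by
      intro n m
      have h1 := (hz n).abs_sub_le he hne hv0 hv1 (hz m)
      have h2 : |(z n : Z) - z m| ≤ |‖F n - F m‖ • e| := h1.trans (le_abs_self _)
      have h3 := norm_le_norm_of_abs_le_abs h2
      rwa [norm_smul, norm_norm] at h3
    have hc : CauchySeq fun n => (z n : Z) := by
      have hcF := hlim.cauchySeq
      rw [Metric.cauchySeq_iff] at hcF ⊢
      intro ε hε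
      obtain ⟨N, hN⟩ := hcF (ε / (‖e‖ + 1)) (by positivity)
      refine ⟨N, fun n hn m hm => ?_⟩
      have h1 := hN n hn m hm
      rw [dist_eq_norm] at h1 ⊢
      calc _ ≤ ‖F n - F m‖ * ‖e‖ := hb n m
        _ ≤ ‖F n - F m‖ * (‖e‖ + 1) := by gcongr; linarith
        _ < ε := by rwa [lt_div_iff₀ (by positivity)] at h1
    obtain ⟨w, hw⟩ := cauchySeq_tendsto_of_complete hc
    have hdist : ∀ n, |(z n : Z) - w| ≤ ‖F n - g‖ • e := by
      intro n
      have h1 : Filter.Tendsto (fun m => |(z n : Z) - z m|) Filter.atTop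
          (nhds |(z n : Z) - w|) := by
        have : Continuous fun x : Z => |x| := by
          unfold abs; fun_prop
        exact this.continuousAt.tendsto.comp (tendsto_const_nhds.sub hw)
      have h2 : Filter.Tendsto (fun m => ‖F n - F m‖ • e) Filter.atTop
          (nhds (‖F n - g‖ • e)) :=
        ((tendsto_const_nhds.sub hlim).norm).smul_const e
      exact le_of_tendsto_of_tendsto' h1 h2 fun m => (hz n).abs_sub_le he hne hv0 hv1 (hz m)
    have hwI : w ∈ PI e := by
      have h1 : (z 0 : Z) - w ∈ PI e := ⟨_, hdist 0⟩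
      have h2 := sub_mem (z 0).2 h1
      simpa using h2
    refine ⟨⟨w, hwI⟩, fun h => ?_⟩
    have h1 : ∀ n, |h.h (z n) - h.h ⟨w, hwI⟩| ≤ ‖F n - g‖ := by
      intro n
      obtain ⟨ha, hb⟩ := abs_le'.mp (hdist n)
      have k1 : h.h (z n - ⟨w, hwI⟩) ≤ h.h (‖F n - g‖ • eI e he) := h.mono ha
      have k2 : h.h (-(z n - ⟨w, hwI⟩)) ≤ h.h (‖F n - g‖ • eI e he) := h.mono hb
      rw [map_smul, h.unit, smul_eq_mul, mul_one] at k1 k2
      rw [map_neg] at k2
      rw [map_sub] at k1 k2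
      exact abs_le.mpr ⟨by linarith, k1⟩
    have h2 : Filter.Tendsto (fun n => h.h (z n)) Filter.atTop (nhds (h.h ⟨w, hwI⟩)) := by
      rw [tendsto_iff_norm_sub_tendsto_zero]
      have h3 : Filter.Tendsto (fun n => ‖F n - g‖) Filter.atTop (nhds 0) :=
        tendsto_iff_norm_sub_tendsto_zero.mp hlim
      exact squeeze_zero (fun _ => norm_nonneg _) h1 h3
    have h3 : Filter.Tendsto (fun n => F n (pt he v hv0 hv1 h)) Filter.atTop
        (nhds (g (pt he v hv0 hv1 h))) :=
      ((continuous_eval_const (F := C(Cube A, ℝ)) (pt he v hv0 hv1 h)).tendsto g).comp hlim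
    have h4 : (fun n => h.h (z n)) = fun n => F n (pt he v hv0 hv1 h) := funext fun n => hz n h
    rw [h4] at h2
    exact tendsto_nhds_unique h2 h3
  refine cube_induction hD ?_ ?_ ?_ ?_ ⟨_, Rel.one he hv0 hv1⟩
    (fun a => ⟨_, Rel.coord he hv0 hv1 a⟩) f
  · rintro f ⟨z, hz⟩ g ⟨w, hw⟩
    exact ⟨_, hz.sup he hv0 hv1 hw⟩
  · rintro f ⟨z, hz⟩ g ⟨w, hw⟩
    exact ⟨_, hz.inf he hv0 hv1 hw⟩
  · rintro f ⟨z, hz⟩ g ⟨w, hw⟩
    exact ⟨_, hz.add he hv0 hv1 hw⟩
  · rintro c f ⟨z, hz⟩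
    exact ⟨_, hz.smul he hv0 hv1 c⟩

end calculus

/-- **Functional calculus on the cube.** -/
theorem exists_calculus {A : Type*} {e : Z} (he : 0 ≤ e) {v : A → Z} (hv0 : ∀ a, 0 ≤ v a)
    (hv1 : ∀ a, v a ≤ e) : ∃ S : C(Cube A, ℝ) →ₗ[ℝ] Z, (∀ f g, S (f ⊔ g) = S f ⊔ S g) ∧
      (∀ f g, S (f ⊓ g) = S f ⊓ S g) ∧ S 1 = e ∧ ∀ a, S (coord a) = v a := by
  by_cases hne : e = 0
  · refine ⟨0, by simp, by simp, by simp [hne], fun a => ?_⟩
    have h := hv1 a
    rw [hne] at h
    simpa using (le_antisymm h (hv0 a)).symm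
  · choose S hS using fun f => exists_rel he hne hv0 hv1 f
    refine ⟨{ toFun := fun f => (S f : Z), map_add' := fun f g => ?_, map_smul' := fun c f => ?_ },
      fun f g => ?_, fun f g => ?_, ?_, fun a => ?_⟩
    · have := (hS (f + g)).unique he hne hv0 hv1 ((hS f).add he hv0 hv1 (hS g))
      rw [this]; rfl
    · have := (hS (c • f)).unique he hne hv0 hv1 ((hS f).smul he hv0 hv1 c)
      rw [this]; rfl
    · have := (hS (f ⊔ g)).unique he hne hv0 hv1 ((hS f).sup he hv0 hv1 (hS g))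
      exact congrArg Subtype.val this
    · have := (hS (f ⊓ g)).unique he hne hv0 hv1 ((hS f).inf he hv0 hv1 (hS g))
      exact congrArg Subtype.val this
    · exact congrArg Subtype.val ((hS 1).unique he hne hv0 hv1 (Rel.one he hv0 hv1))
    · exact congrArg Subtype.val ((hS (coord a)).unique he hne hv0 hv1 (Rel.coord he hv0 hv1 a))

end Pool.Agent.H27.Fremlin
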