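import Pool.Agent.H27.Fremlin.Gauge

/-!
# Projective Banach lattices of continuous functions on cubes

The gauge norm on `C([0,1]^A)` generated by `1` and `N` times the coordinate functions makes it a
projective Banach lattice.
-/

namespace Pool.Agent.H27.Fremlin

/-- the generators: the constant one and `N` times the coordinates -/
def cubeGen (A : Type*) (N : ℕ) : Set C(Cube A, ℝ) :=
  insert 1 (Set.range fun a : A => (N : ℝ) • coord a)

lemma coord_apply {A : Type*} (a : A) (s : Cube A) : coord a s = (s a : ℝ) := rfl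

lemma coord_nonneg {A : Type*} (a : A) (s : Cube A) : 0 ≤ coord a s := (s a).2.1

lemma coord_le_one {A : Type*} (a : A) (s : Cube A) : coord a s ≤ 1 := (s a).2.2

/-- the gauge set generated by `1` and `N` times the coordinates -/
def cubeGauge (A : Type*) (N : ℕ) : GaugeSet (Cube A) where
  D := convexHull ℝ (cubeGen A N)
  convex := convex_convexHull ℝ _
  one_mem := subset_convexHull ℝ _ (Set.mem_insert _ _)
  nonneg h hh := by
    have hc : Convex ℝ {f : C(Cube A, ℝ) | ∀ s, 0 ≤ f s} := by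
      intro f hf g hg a b ha hb _ s
      have h1 := mul_nonneg ha (hf s)
      have h2 := mul_nonneg hb (hg s)
      simpa using add_nonneg h1 h2
    refine convexHull_min ?_ hc hh
    rintro f (rfl | ⟨a, rfl⟩) s
    · simp
    · exact mul_nonneg (Nat.cast_nonneg N) (coord_nonneg a s)
  bound := N + 1
  le_bound h hh := by
    have hc : Convex ℝ {f : C(Cube A, ℝ) | ∀ s, f s ≤ (N : ℝ) + 1} := by
      intro f hf g hg a b ha hb hab s
      have h1 := mul_le_mul_of_nonneg_left (hf s) ha
      have h2 := mul_le_mul_of_nonneg_left (hg s) hb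
      have h3 : a * ((N : ℝ) + 1) + b * ((N : ℝ) + 1) = N + 1 := by rw [← add_mul, hab, one_mul]
      simp only [ContinuousMap.add_apply, ContinuousMap.smul_apply, smul_eq_mul]
      linarith
    refine convexHull_min ?_ hc hh
    rintro f (rfl | ⟨a, rfl⟩) s
    · simp
    · have h1 := mul_le_mul_of_nonneg_left (coord_le_one a s) (Nat.cast_nonneg (α := ℝ) N)
      simp only [ContinuousMap.smul_apply, smul_eq_mul]
      linarith

lemma gnorm_gen_le {A : Type*} {N : ℕ} {h : C(Cube A, ℝ)} (hh : h ∈ cubeGen A N) :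
    gnorm (cubeGauge A N) h ≤ 1 :=
  gnorm_le zero_le_one (subset_convexHull ℝ _ hh) fun s => by
    rw [one_mul, abs_of_nonneg ((cubeGauge A N).nonneg h (subset_convexHull ℝ _ hh) s)]

lemma abs_sup_zero_le {E : Type*} [BanachLattice E] (x : E) : |x ⊔ 0| ≤ |x| := by
  rw [abs_of_nonneg le_sup_right]
  exact sup_le (le_abs_self x) (abs_nonneg x)

lemma quot_eq_zero {E : Type*} [BanachLattice E] {J : Submodule ℝ E}
    (hJ : IsClosed (J : Set E)) {q : E ⧸ J} (h : ‖q‖ = 0) : q = 0 := by
  have hinst : IsClosed (J : Set E) := hJ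
  exact norm_eq_zero.mp h

/-- `C([0,1]^A)` with the gauge norm generated by `1` and `N` times the coordinates is
projective. -/
theorem cube_isProjective (A : Type) {N : ℕ} (hN : 0 < N) :
    IsProjective (GC (cubeGauge A N)) := by
  intro E _ J hJ T hT ε hε
  have hNR : (0 : ℝ) < N := by exact_mod_cast hN
  have hT0 : T 0 = Submodule.Quotient.mk 0 := by rw [map_zero, Submodule.Quotient.mk_zero]
  rcases (norm_nonneg T).eq_or_lt with h0 | h0
  · have hT' : ∀ p, T p = 0 := fun p => quot_eq_zero hJ.1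
      (le_antisymm ((T.le_opNorm p).trans (by rw [← h0, zero_mul])) (norm_nonneg _))
    refine ⟨0, ⟨by simp, by simp⟩, fun p => by rw [hT' p]; simp, ?_⟩
    rw [norm_zero, ← h0, mul_zero]
  -- lifts of the generators
  have hlift : ∀ h ∈ cubeGen A N, ∃ x : E, T (toGC _ h) = Submodule.Quotient.mk x ∧
      ‖x‖ ≤ (1 + ε) * ‖T‖ := by
    intro h hh
    obtain ⟨x, hx, hx'⟩ := Submodule.Quotient.norm_mk_lt (T (toGC _ h))
      (show 0 < ε * ‖T‖ by positivity)
    refine ⟨x, hx.symm, ?_⟩
    have h1 : ‖T (toGC (cubeGauge A N) h)‖ ≤ ‖T‖ * 1 :=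
      (T.le_opNorm _).trans (mul_le_mul_of_nonneg_left (gnorm_gen_le hh) h0.le)
    linarith
  obtain ⟨x₀, hx₀, hx₀'⟩ := hlift 1 (Set.mem_insert _ _)
  choose x hx hx' using fun a : A => hlift ((N : ℝ) • coord a) (Set.mem_insert_of_mem _ ⟨a, rfl⟩)
  set e : E := x₀ ⊔ 0 with he_def
  have he : 0 ≤ e := le_sup_right
  have heT : T (toGC _ 1) = Submodule.Quotient.mk e := by
    have h1 := hT.1 _ _ _ _ hx₀ hT0
    have h2 : toGC (cubeGauge A N) 1 ⊔ 0 = toGC _ 1 := by
      rw [sup_eq_left, toC_nonneg]; intro s; simp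
    rwa [h2] at h1
  have hen : ‖e‖ ≤ (1 + ε) * ‖T‖ :=
    (norm_le_norm_of_abs_le_abs (abs_sup_zero_le x₀)).trans hx₀'
  let u : A → E := fun a => (x a ⊔ 0) ⊓ ((N : ℝ) • e)
  have hu0 : ∀ a, 0 ≤ u a := fun a => le_inf le_sup_right (smul_nonneg hNR.le he)
  have hu1 : ∀ a, u a ≤ (N : ℝ) • e := fun a => inf_le_right
  have hun : ∀ a, ‖u a‖ ≤ (1 + ε) * ‖T‖ := by
    intro a
    refine (norm_le_norm_of_abs_le_abs ?_).trans (hx' a)
    rw [abs_of_nonneg (hu0 a)]
    exact inf_le_left.trans (sup_le (le_abs_self _) (abs_nonneg _))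
  have huT : ∀ a, T (toGC _ ((N : ℝ) • coord a)) = Submodule.Quotient.mk (u a) := by
    intro a
    have h1 := hT.1 _ _ _ _ (hx a) hT0
    have h2 : toGC (cubeGauge A N) ((N : ℝ) • coord a) ⊔ 0 = toGC _ ((N : ℝ) • coord a) := by
      rw [sup_eq_left, toC_nonneg]; intro s
      exact mul_nonneg hNR.le (coord_nonneg a s)
    rw [h2] at h1
    have h3 : T ((N : ℝ) • toGC _ 1) = Submodule.Quotient.mk ((N : ℝ) • e) := by
      rw [map_smul, heT, Submodule.Quotient.mk_smul]
    have h4 := hT.2 _ _ _ _ h1 h3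
    have h5 : toGC (cubeGauge A N) ((N : ℝ) • coord a) ⊓ ((N : ℝ) • toGC _ 1)
        = toGC _ ((N : ℝ) • coord a) := by
      rw [inf_eq_left, toC_le]; intro s
      show (N : ℝ) * coord a s ≤ (N : ℝ) * 1
      exact mul_le_mul_of_nonneg_left (coord_le_one a s) hNR.le
    rwa [h5] at h4
  obtain ⟨S, hS1, hS2, hS3, hS4⟩ := exists_calculus he (v := fun a => (N : ℝ)⁻¹ • u a)
    (fun a => smul_nonneg (inv_nonneg.mpr hNR.le) (hu0 a))
    (fun a => by
      rw [inv_smul_le_iff_of_pos hNR]; exact hu1 a)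
  have hS4' : ∀ a, S ((N : ℝ) • coord a) = u a := fun a => by
    rw [map_smul, hS4, smul_inv_smul₀ hNR.ne']
  have hSpos : ∀ f : C(Cube A, ℝ), (∀ s, 0 ≤ f s) → 0 ≤ S f := by
    intro f hf
    have h1 : f ⊔ 0 = f := sup_eq_left.mpr (ContinuousMap.le_def.mpr hf)
    have h2 := hS1 f 0
    rw [h1, map_zero] at h2
    rw [h2]; exact le_sup_right
  have hSD : ∀ h ∈ (cubeGauge A N).D, ‖S h‖ ≤ (1 + ε) * ‖T‖ := by
    intro h hh
    have hc : Convex ℝ {f : C(Cube A, ℝ) | ‖S f‖ ≤ (1 + ε) * ‖T‖} := by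
      have : {f : C(Cube A, ℝ) | ‖S f‖ ≤ (1 + ε) * ‖T‖}
          = S ⁻¹' (Metric.closedBall 0 ((1 + ε) * ‖T‖)) := by
        ext f; simp
      rw [this]
      exact (convex_closedBall 0 _).linear_preimage S
    refine convexHull_min ?_ hc hh
    rintro f (rfl | ⟨a, rfl⟩)
    · show ‖S 1‖ ≤ _
      rw [hS3]; exact hen
    · show ‖S _‖ ≤ _
      rw [hS4']; exact hun a
  have hbound : ∀ f : GC (cubeGauge A N), ‖(S ∘ₗ (toC _).toLinearMap) f‖
      ≤ ((1 + ε) * ‖T‖) * ‖f‖ := fun f =>
    norm_le_of_positive S hSpos (by positivity) hSD (toC _ f)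
  set L : GC (cubeGauge A N) →L[ℝ] E :=
    LinearMap.mkContinuous (S ∘ₗ (toC _).toLinearMap) _ hbound with hL
  have hLS : ∀ f, L (toGC _ f) = S f := fun f => rfl
  refine ⟨L, ⟨fun f g => ?_, fun f g => ?_⟩, ?_, ?_⟩
  · exact hS1 _ _
  · exact hS2 _ _
  · -- the lifting property
    have hclosed : IsClosed (J : Set E) := hJ.1
    have key : ∀ f : C(Cube A, ℝ), f ∈ {f : C(Cube A, ℝ) |
        (Submodule.Quotient.mk (L (toGC _ f)) : E ⧸ J) = T (toGC _ f)} := by
      intro f
      apply cube_induction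
      · have e1 : {f : C(Cube A, ℝ) |
            (Submodule.Quotient.mk (L (toGC _ f)) : E ⧸ J) = T (toGC _ f)}
            = {f | ‖(Submodule.Quotient.mk (L (toGC _ f)) : E ⧸ J) - T (toGC _ f)‖ = 0} := by
          ext f
          simp only [Set.mem_ofPred_eq]
          constructor
          · intro h; rw [h, sub_self, norm_zero]
          · intro h
            exact sub_eq_zero.mp (quot_eq_zero hclosed h)
        rw [e1]
        refine isClosed_eq ?_ continuous_const
        have hmk : Continuous fun x : E => (Submodule.Quotient.mk x : E ⧸ J) :=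
          continuous_quotient_mk'
        fun_prop
      · intro f hf g hg
        simp only [Set.mem_ofPred_eq] at hf hg ⊢
        rw [toGC_sup, hT.1 _ _ _ _ hf.symm hg.symm]
        exact congrArg _ (hS1 f g)
      · intro f hf g hg
        simp only [Set.mem_ofPred_eq] at hf hg ⊢
        rw [toGC_inf, hT.2 _ _ _ _ hf.symm hg.symm]
        exact congrArg _ (hS2 f g)
      · intro f hf g hg
        simp only [Set.mem_ofPred_eq] at hf hg ⊢
        rw [map_add, map_add, map_add, Submodule.Quotient.mk_add, hf, hg]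
      · intro c f hf
        simp only [Set.mem_ofPred_eq] at hf ⊢
        rw [map_smul, map_smul, map_smul, Submodule.Quotient.mk_smul, hf]
      · show (Submodule.Quotient.mk (L (toGC _ 1)) : E ⧸ J) = T (toGC _ 1)
        rw [hLS, hS3, heT]
      · intro a
        show (Submodule.Quotient.mk (L (toGC _ (coord a))) : E ⧸ J) = T (toGC _ (coord a))
        have h1 : (coord a : C(Cube A, ℝ)) = (N : ℝ)⁻¹ • ((N : ℝ) • coord a) := by
          rw [smul_smul, inv_mul_cancel₀ hNR.ne', one_smul]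
        have h2 : toGC (cubeGauge A N) (coord a)
            = (N : ℝ)⁻¹ • toGC _ ((N : ℝ) • coord a) := by rw [← map_smul, ← h1]
        rw [h2, L.map_smul, T.map_smul, Submodule.Quotient.mk_smul, hLS, hS4', huT]
    intro p
    have := key (toC _ p)
    exact this
  · exact LinearMap.mkContinuous_norm_le _ (by positivity) _

end Pool.Agent.H27.Fremlin
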