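import Mathlib

/-!
# Banach lattices: projectivity and the Fremlin tensor product

Basic definitions: real Banach lattices, lattice homomorphisms, projective Banach lattices in the
(isometric) sense of de Pagter and Wickstead, topological order units, and the Fremlin projective
tensor product, which is described by its universal property.
-/

namespace Pool.Agent.H27.Fremlin

/-- A real Banach lattice. -/
class BanachLattice (E : Type*) extends NormedAddCommGroup E, NormedSpace ℝ E, Lattice E,
  CompleteSpace E, HasSolidNorm E, IsOrderedAddMonoid E, IsOrderedModule ℝ E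

/-- A bounded linear map which preserves finite suprema and infima. -/
def IsLatticeHom {E F : Type*} [BanachLattice E] [BanachLattice F] (T : E →L[ℝ] F) : Prop :=
  (∀ x y, T (x ⊔ y) = T x ⊔ T y) ∧ (∀ x y, T (x ⊓ y) = T x ⊓ T y)

/-- `J` is a closed (order) ideal of the Banach lattice `E`. -/
def IsClosedIdeal {E : Type*} [BanachLattice E] (J : Submodule ℝ E) : Prop :=
  IsClosed (J : Set E) ∧ ∀ x ∈ J, ∀ y : E, |y| ≤ |x| → y ∈ J

/-- `T : P → E ⧸ J` preserves finite suprema; the supremum of the classes of `x` and `y` in the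
quotient Banach lattice `E ⧸ J` is the class of `x ⊔ y`. -/
def PreservesSup {P E : Type*} [BanachLattice P] [BanachLattice E] {J : Submodule ℝ E}
    (T : P → E ⧸ J) : Prop :=
  ∀ (p q : P) (x y : E), T p = Submodule.Quotient.mk x → T q = Submodule.Quotient.mk y →
    T (p ⊔ q) = Submodule.Quotient.mk (x ⊔ y)

/-- `T : P → E ⧸ J` preserves finite infima; the infimum of the classes of `x` and `y` in the
quotient Banach lattice `E ⧸ J` is the class of `x ⊓ y`. -/
def PreservesInf {P E : Type*} [BanachLattice P] [BanachLattice E] {J : Submodule ℝ E}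
    (T : P → E ⧸ J) : Prop :=
  ∀ (p q : P) (x y : E), T p = Submodule.Quotient.mk x → T q = Submodule.Quotient.mk y →
    T (p ⊓ q) = Submodule.Quotient.mk (x ⊓ y)

/-- The bounded linear map `T : P → E ⧸ J` is a lattice homomorphism into the quotient Banach
lattice `E ⧸ J`. -/
def IsLatticeHomQuot {P E : Type*} [BanachLattice P] [BanachLattice E] {J : Submodule ℝ E}
    (T : P →L[ℝ] E ⧸ J) : Prop :=
  PreservesSup T ∧ PreservesInf T

/-- `P` is a projective Banach lattice: every lattice homomorphism `T` from `P` to a quotient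
`E ⧸ J` of a Banach lattice by a closed ideal has, for every `ε > 0`, a lifting to a lattice
homomorphism `P → E` of norm at most `(1 + ε) ‖T‖`. -/
def IsProjective (P : Type) [BanachLattice P] : Prop :=
  ∀ (E : Type) [BanachLattice E] (J : Submodule ℝ E), IsClosedIdeal J →
    ∀ T : P →L[ℝ] E ⧸ J, IsLatticeHomQuot T → ∀ ε : ℝ, 0 < ε →
      ∃ L : P →L[ℝ] E, IsLatticeHom L ∧ (∀ p, (Submodule.Quotient.mk (L p) : E ⧸ J) = T p) ∧
        ‖L‖ ≤ (1 + ε) * ‖T‖

/-- `e` is a topological order unit: the closed ideal generated by `e` is the whole space. -/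
def IsTopologicalOrderUnit {E : Type*} [BanachLattice E] (e : E) : Prop :=
  0 ≤ e ∧ ∀ J : Submodule ℝ E, IsClosedIdeal J → e ∈ J → J = ⊤

/-- `φ : X × Y → Z` is a bounded positive bilinear map. -/
def IsPositiveBilinear {X Y Z : Type} [BanachLattice X] [BanachLattice Y] [BanachLattice Z]
    (φ : X × Y → Z) : Prop :=
  IsBoundedBilinearMap ℝ φ ∧ ∀ x y, 0 ≤ x → 0 ≤ y → 0 ≤ φ (x, y)

/-- The norm `‖φ‖` of a bounded bilinear map `φ`: the least `C ≥ 0` with
`‖φ (x, y)‖ ≤ C ‖x‖ ‖y‖` for all `x` and `y`. -/
noncomputable def bilinearNorm {X Y Z : Type} [BanachLattice X] [BanachLattice Y]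
    [BanachLattice Z] (φ : X × Y → Z) : ℝ :=
  sInf {C | 0 ≤ C ∧ ∀ x y, ‖φ (x, y)‖ ≤ C * ‖x‖ * ‖y‖}

/-- The bounded linear map `T : F → Z` is positive and `T (t (x, y)) = φ (x, y)`. -/
def IsLinearization {X Y F Z : Type} [BanachLattice F] [BanachLattice Z] (t : X × Y → F)
    (φ : X × Y → Z) (T : F →L[ℝ] Z) : Prop :=
  (∀ u, 0 ≤ u → 0 ≤ T u) ∧ ∀ x y, T (t (x, y)) = φ (x, y)

/-- `(F, t)` is the Fremlin (projective) tensor product of the Banach lattices `X` and `Y`:
`t : X × Y → F` is a bounded positive bilinear map, and for every Banach lattice `Z` and every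
bounded positive bilinear `φ : X × Y → Z` there is a unique bounded positive linear `T : F → Z`
with `T (t (x, y)) = φ (x, y)`, and moreover `‖T‖ = ‖φ‖`. -/
def IsFremlinTensor {X Y F : Type} [BanachLattice X] [BanachLattice Y] [BanachLattice F]
    (t : X × Y → F) : Prop :=
  IsPositiveBilinear t ∧
    ∀ (Z : Type) [BanachLattice Z] (φ : X × Y → Z), IsPositiveBilinear φ →
      ∃ T : F →L[ℝ] Z, IsLinearization t φ T ∧ ‖T‖ = bilinearNorm φ ∧
        ∀ T' : F →L[ℝ] Z, IsLinearization t φ T' → T' = T

end Pool.Agent.H27.Fremlin
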