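import Pool.Agent.H27.Fremlin.Calculus

/-!
# Gauge norms on spaces of continuous functions

Given a convex set `D` of bounded nonnegative continuous functions on a compact space `K`, with
`1 ∈ D`, the space `C(K, ℝ)` is a Banach lattice under the norm
`‖f‖ = inf {r ≥ 0 : |f| ≤ r h for some h ∈ D}`.
-/

namespace Pool.Agent.H27.Fremlin

/-- The data defining a gauge norm. -/
structure GaugeSet (K : Type*) [TopologicalSpace K] [CompactSpace K] where
  D : Set C(K, ℝ)
  convex : Convex ℝ D
  one_mem : 1 ∈ D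
  nonneg : ∀ h ∈ D, ∀ s, 0 ≤ h s
  bound : ℝ
  le_bound : ∀ h ∈ D, ∀ s, h s ≤ bound

variable {K : Type*} [TopologicalSpace K] [CompactSpace K]

/-- `C(K, ℝ)`, to be equipped with the gauge norm of `G` -/
def GC (_G : GaugeSet K) : Type _ := C(K, ℝ)

variable (G : GaugeSet K)

instance : AddCommGroup (GC G) := inferInstanceAs (AddCommGroup C(K, ℝ))
instance : Module ℝ (GC G) := inferInstanceAs (Module ℝ C(K, ℝ))
instance : Lattice (GC G) := inferInstanceAs (Lattice C(K, ℝ))

/-- an element of `GC G` as a continuous function -/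
def toC : GC G ≃ₗ[ℝ] C(K, ℝ) := LinearEquiv.refl ℝ C(K, ℝ)

/-- the set of admissible constants -/
def rset (f : C(K, ℝ)) : Set ℝ := {r | 0 ≤ r ∧ ∃ h ∈ G.D, ∀ s, |f s| ≤ r * h s}

/-- the gauge norm -/
noncomputable def gnorm (f : C(K, ℝ)) : ℝ := sInf (rset G f)

variable {G}

lemma rset_bdd (f : C(K, ℝ)) : BddBelow (rset G f) := ⟨0, fun _ h => h.1⟩

lemma norm_mem_rset (f : C(K, ℝ)) : ‖f‖ ∈ rset G f :=
  ⟨norm_nonneg _, 1, G.one_mem, fun s => by
    simpa using f.norm_coe_le_norm s⟩

lemma rset_nonempty (f : C(K, ℝ)) : (rset G f).Nonempty := ⟨_, norm_mem_rset f⟩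

lemma gnorm_nonneg (f : C(K, ℝ)) : 0 ≤ gnorm G f := le_csInf (rset_nonempty f) fun _ h => h.1

lemma gnorm_le {f : C(K, ℝ)} {r : ℝ} (hr : 0 ≤ r) {h : C(K, ℝ)} (hh : h ∈ G.D)
    (hf : ∀ s, |f s| ≤ r * h s) : gnorm G f ≤ r :=
  csInf_le (rset_bdd f) ⟨hr, h, hh, hf⟩

lemma gnorm_le_norm (f : C(K, ℝ)) : gnorm G f ≤ ‖f‖ := csInf_le (rset_bdd f) (norm_mem_rset f)

lemma exists_of_gnorm_lt {f : C(K, ℝ)} {c : ℝ} (h : gnorm G f < c) :
    ∃ r, 0 ≤ r ∧ r < c ∧ ∃ h ∈ G.D, ∀ s, |f s| ≤ r * h s := by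
  obtain ⟨r, ⟨hr, h1⟩, hr'⟩ := exists_lt_of_csInf_lt (rset_nonempty f) h
  exact ⟨r, hr, hr', h1⟩

lemma apply_le_gnorm (f : C(K, ℝ)) (s : K) : |f s| ≤ gnorm G f * G.bound := by
  have hb : 1 ≤ G.bound := by simpa using G.le_bound 1 G.one_mem s
  rw [← div_le_iff₀ (by linarith)]
  refine le_csInf (rset_nonempty f) ?_
  rintro r ⟨hr, h, hh, hf⟩
  rw [div_le_iff₀ (by linarith)]
  exact (hf s).trans (mul_le_mul_of_nonneg_left (G.le_bound h hh s) hr)

lemma gnorm_add (f g : C(K, ℝ)) : gnorm G (f + g) ≤ gnorm G f + gnorm G g := by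
  refine le_of_forall_pos_le_add fun ε hε => ?_
  obtain ⟨r, hr, hr', h, hh, hf⟩ := exists_of_gnorm_lt
    (show gnorm G f < gnorm G f + ε / 2 by linarith)
  obtain ⟨t, ht, ht', k, hk, hg⟩ := exists_of_gnorm_lt
    (show gnorm G g < gnorm G g + ε / 2 by linarith)
  rcases (add_nonneg hr ht).eq_or_lt with h0 | h0
  · have hr0 : r = 0 := by linarith
    have ht0 : t = 0 := by linarith
    have : gnorm G (f + g) ≤ 0 := by
      refine gnorm_le le_rfl hh fun s => ?_
      have h1 := hf s
      have h2 := hg s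
      rw [hr0, zero_mul] at h1
      rw [ht0, zero_mul] at h2
      rw [zero_mul]
      exact (abs_add_le _ _).trans (by linarith)
    have h1 := gnorm_nonneg (G := G) f
    have h2 := gnorm_nonneg (G := G) g
    linarith
  · have : gnorm G (f + g) ≤ r + t := by
      refine gnorm_le h0.le (G.convex hh hk (a := r / (r + t)) (b := t / (r + t))
        (by positivity) (by positivity) (by field_simp)) fun s => ?_
      have h1 := hf s
      have h2 := hg s
      have e : (r + t) * ((r / (r + t)) • h + (t / (r + t)) • k : C(K, ℝ)) s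
          = r * h s + t * k s := by
        simp only [ContinuousMap.add_apply, ContinuousMap.smul_apply, smul_eq_mul]
        field_simp
      rw [e]
      exact (abs_add_le _ _).trans (by linarith)
    linarith

lemma gnorm_smul_le (c : ℝ) (f : C(K, ℝ)) : gnorm G (c • f) ≤ |c| * gnorm G f := by
  rcases (abs_nonneg c).eq_or_lt with h0 | h0
  · have hc : c = 0 := abs_eq_zero.mp h0.symm
    have : gnorm G (c • f) ≤ 0 := by
      refine gnorm_le le_rfl G.one_mem fun s => ?_
      simp [hc]
    rw [← h0, zero_mul]; exact this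
  · rw [← div_le_iff₀' h0]
    refine le_csInf (rset_nonempty f) ?_
    rintro r ⟨hr, h, hh, hf⟩
    rw [div_le_iff₀' h0]
    refine gnorm_le (by positivity) hh fun s => ?_
    rw [ContinuousMap.smul_apply, smul_eq_mul, abs_mul, mul_assoc]
    exact mul_le_mul_of_nonneg_left (hf s) h0.le

lemma gnorm_solid {f g : C(K, ℝ)} (h : ∀ s, |f s| ≤ |g s|) : gnorm G f ≤ gnorm G g := by
  refine le_csInf (rset_nonempty g) ?_
  rintro r ⟨hr, k, hk, hg⟩
  exact gnorm_le hr hk fun s => (h s).trans (hg s)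

lemma gnorm_zero : gnorm G 0 = 0 :=
  le_antisymm (by simpa using gnorm_le_norm (G := G) (0 : C(K, ℝ))) (gnorm_nonneg _)

lemma toC_le {f g : GC G} : f ≤ g ↔ ∀ s, toC G f s ≤ toC G g s := ContinuousMap.le_def

lemma toC_nonneg {f : GC G} : 0 ≤ f ↔ ∀ s, 0 ≤ toC G f s := ContinuousMap.le_def

lemma toC_sup (f g : GC G) : toC G (f ⊔ g) = toC G f ⊔ toC G g := rfl

lemma toC_inf (f g : GC G) : toC G (f ⊓ g) = toC G f ⊓ toC G g := rfl

lemma toC_abs (f : GC G) (s : K) : toC G |f| s = |toC G f s| := by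
  show (|toC G f|) s = _
  simp

variable (G)

/-- the gauge norm as a group norm -/
noncomputable def gGroupNorm : AddGroupNorm (GC G) where
  toFun f := gnorm G (toC G f)
  map_zero' := by rw [map_zero, gnorm_zero]
  add_le' f g := by rw [map_add]; exact gnorm_add _ _
  neg' f := by
    rw [map_neg]
    exact le_antisymm (gnorm_solid fun s => by simp) (gnorm_solid fun s => by simp)
  eq_zero_of_map_eq_zero' f hf := by
    have h : toC G f = 0 := by
      ext s
      have := apply_le_gnorm (G := G) (toC G f) s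
      rw [hf, zero_mul] at this
      exact abs_nonpos_iff.mp this
    exact (toC G).map_eq_zero_iff.mp h

noncomputable instance : NormedAddCommGroup (GC G) := (gGroupNorm G).toNormedAddCommGroup

lemma norm_def (f : GC G) : ‖f‖ = gnorm G (toC G f) := rfl

noncomputable instance : NormedSpace ℝ (GC G) where
  norm_smul_le c f := by
    rw [Real.norm_eq_abs, norm_def, norm_def, map_smul]
    exact gnorm_smul_le c _

instance : CompleteSpace (GC G) := by
  refine Metric.complete_of_cauchySeq_tendsto fun u hu => ?_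
  have hc : CauchySeq fun n => toC G (u n) := by
    rw [Metric.cauchySeq_iff] at hu ⊢
    intro ε hε
    obtain ⟨N, hN⟩ := hu (ε / (2 * (|G.bound| + 1))) (by positivity)
    refine ⟨N, fun n hn m hm => ?_⟩
    have h2 := hN n hn m hm
    rw [dist_eq_norm, norm_def, map_sub] at h2
    rw [dist_eq_norm]
    have h3 : ‖toC G (u n) - toC G (u m)‖ ≤ ε / 2 := by
      rw [ContinuousMap.norm_le _ (by positivity)]
      intro s
      refine (apply_le_gnorm (G := G) _ s).trans ?_
      have h4 : G.bound ≤ |G.bound| + 1 := by linarith [le_abs_self G.bound]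
      calc _ ≤ gnorm G (toC G (u n) - toC G (u m)) * (|G.bound| + 1) :=
            mul_le_mul_of_nonneg_left h4 (gnorm_nonneg _)
        _ ≤ ε / (2 * (|G.bound| + 1)) * (|G.bound| + 1) := by
            apply mul_le_mul_of_nonneg_right h2.le; positivity
        _ = ε / 2 := by field_simp
    linarith
  obtain ⟨g, hg⟩ := cauchySeq_tendsto_of_complete hc
  refine ⟨(toC G).symm g, ?_⟩
  rw [tendsto_iff_norm_sub_tendsto_zero] at hg ⊢
  refine squeeze_zero (fun _ => norm_nonneg _) (fun n => ?_) hg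
  rw [norm_def, map_sub, LinearEquiv.apply_symm_apply]
  exact gnorm_le_norm _

instance : HasSolidNorm (GC G) where
  solid {f g} h := gnorm_solid fun s => by
    have h1 := toC_le.mp h s
    rwa [toC_abs, toC_abs] at h1

instance : IsOrderedAddMonoid (GC G) := inferInstanceAs (IsOrderedAddMonoid C(K, ℝ))

instance : IsOrderedModule ℝ (GC G) where
  smul_le_smul_of_nonneg_left c hc f g h := by
    rw [toC_le] at h ⊢
    intro s
    rw [map_smul, map_smul]
    exact mul_le_mul_of_nonneg_left (h s) hc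
  smul_le_smul_of_nonneg_right f hf c d h := by
    rw [toC_nonneg] at hf
    rw [toC_le]
    intro s
    rw [map_smul, map_smul]
    exact mul_le_mul_of_nonneg_right h (hf s)

noncomputable instance : BanachLattice (GC G) where

/-- the identity map, as a continuous linear map -/
noncomputable def toGC : C(K, ℝ) →L[ℝ] GC G :=
  LinearMap.mkContinuous ((toC G).symm : C(K, ℝ) →ₗ[ℝ] GC G) 1 (fun f => by
    rw [one_mul]; exact gnorm_le_norm (G := G) f)

@[simp] lemma toC_toGC (f : C(K, ℝ)) : toC G (toGC G f) = f := rfl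

@[simp] lemma toGC_toC (f : GC G) : toGC G (toC G f) = f := rfl

lemma toGC_sup (f g : C(K, ℝ)) : toGC G (f ⊔ g) = toGC G f ⊔ toGC G g := rfl

lemma toGC_inf (f g : C(K, ℝ)) : toGC G (f ⊓ g) = toGC G f ⊓ toGC G g := rfl

lemma norm_toGC (f : C(K, ℝ)) : ‖toGC G f‖ = gnorm G f := rfl

variable {G}

/-- Positive linear maps are continuous, with a norm controlled by the generators. -/
lemma norm_le_of_positive {Z : Type*} [BanachLattice Z] (S : C(K, ℝ) →ₗ[ℝ] Z)
    (hS : ∀ f, (∀ s, 0 ≤ f s) → 0 ≤ S f) {C : ℝ} (hC : 0 ≤ C) (hD : ∀ h ∈ G.D, ‖S h‖ ≤ C)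
    (f : C(K, ℝ)) : ‖S f‖ ≤ C * gnorm G f := by
  refine le_of_forall_pos_le_add fun ε hε => ?_
  obtain ⟨r, hr, hr', h, hh, hf⟩ := exists_of_gnorm_lt
    (show gnorm G f < gnorm G f + ε / (C + 1) by
      have : 0 < ε / (C + 1) := by positivity
      linarith)
  have h1 : |S f| ≤ r • S h := by
    apply abs_le'.mpr ⟨?_, ?_⟩
    · rw [← sub_nonneg, ← map_smul, ← map_sub]
      refine hS _ fun s => ?_
      have := (abs_le.mp (hf s)).2
      simpa using this
    · rw [← sub_nonneg, ← map_smul, sub_neg_eq_add, ← map_add]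
      refine hS _ fun s => ?_
      have := (abs_le.mp (hf s)).1
      simp only [ContinuousMap.add_apply, ContinuousMap.smul_apply, smul_eq_mul]
      linarith
  have h2 : ‖S f‖ ≤ ‖r • S h‖ := norm_le_norm_of_abs_le_abs (h1.trans (le_abs_self _))
  rw [norm_smul, Real.norm_of_nonneg hr] at h2
  have h3 := hD h hh
  calc ‖S f‖ ≤ r * ‖S h‖ := h2
    _ ≤ r * C := mul_le_mul_of_nonneg_left h3 hr
    _ ≤ (gnorm G f + ε / (C + 1)) * C := mul_le_mul_of_nonneg_right hr'.le hC
    _ = C * gnorm G f + ε * (C / (C + 1)) := by ring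
    _ ≤ C * gnorm G f + ε := by
      have : C / (C + 1) ≤ 1 := by rw [div_le_one (by linarith)]; linarith
      have := mul_le_mul_of_nonneg_left this hε.le
      linarith

/-- The constant function one is a topological order unit. -/
lemma one_isTopologicalOrderUnit (G : GaugeSet K) : IsTopologicalOrderUnit (toGC G 1) := by
  refine ⟨?_, fun J hJ h1 => ?_⟩
  · rw [toC_nonneg]
    intro s; simp
  · rw [eq_top_iff]
    intro f _
    refine hJ.2 _ (J.smul_mem ‖toC G f‖ h1) f ?_
    rw [toC_le]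
    intro s
    rw [toC_abs, toC_abs, map_smul, toC_toGC]
    have := ContinuousMap.norm_coe_le_norm (toC G f) s
    simpa using this

end Pool.Agent.H27.Fremlin
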