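import Pool.Agent.H27.Fremlin.Gauge
import Pool.Agent.H27.Fremlin.Bilin

/-!
# Fremlin tensor products of spaces of continuous functions with gauge norms

`GC (prodGauge G H)`, a renorming of `C(K × L, ℝ)`, is the Fremlin tensor product of `GC G` and
`GC H`.
-/

namespace Pool.Agent.H27.Fremlin

open scoped TensorProduct

variable {K L : Type*} [TopologicalSpace K] [CompactSpace K] [TopologicalSpace L] [CompactSpace L]

/-- the elementary tensor `f ⊗ g` as a function on the product -/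
def tens (f : C(K, ℝ)) (g : C(L, ℝ)) : C(K × L, ℝ) := ⟨fun p => f p.1 * g p.2, by fun_prop⟩

omit [CompactSpace K] [CompactSpace L] in
@[simp] lemma tens_apply (f : C(K, ℝ)) (g : C(L, ℝ)) (p : K × L) :
    tens f g p = f p.1 * g p.2 := rfl

/-- the elementary tensors as a bilinear map -/
def tensL : C(K, ℝ) →ₗ[ℝ] C(L, ℝ) →ₗ[ℝ] C(K × L, ℝ) :=
  LinearMap.mk₂ ℝ tens (fun f f' g => by ext p; simp [add_mul])
    (fun c f g => by ext p; simp [mul_assoc]) (fun f g g' => by ext p; simp [mul_add])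
    (fun c f g => by ext p; simp; ring)

/-- the algebraic tensor product as functions on the product -/
noncomputable def iota : C(K, ℝ) ⊗[ℝ] C(L, ℝ) →ₗ[ℝ] C(K × L, ℝ) := TensorProduct.lift tensL

omit [CompactSpace K] [CompactSpace L] in
@[simp] lemma iota_tmul (f : C(K, ℝ)) (g : C(L, ℝ)) : iota (f ⊗ₜ[ℝ] g) = tens f g := rfl

/-- the gauge set of the tensor product -/
def prodGauge (G : GaugeSet K) (H : GaugeSet L) : GaugeSet (K × L) where
  D := convexHull ℝ {u | ∃ h ∈ G.D, ∃ k ∈ H.D, u = tens h k}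
  convex := convex_convexHull ℝ _
  one_mem := subset_convexHull ℝ _ ⟨1, G.one_mem, 1, H.one_mem, by ext p; simp⟩
  nonneg u hu := by
    have hc : Convex ℝ {f : C(K × L, ℝ) | ∀ s, 0 ≤ f s} := by
      intro f hf g hg a b ha hb _ s
      have h1 := mul_nonneg ha (hf s)
      have h2 := mul_nonneg hb (hg s)
      simpa using add_nonneg h1 h2
    refine convexHull_min ?_ hc hu
    rintro f ⟨h, hh, k, hk, rfl⟩ s
    exact mul_nonneg (G.nonneg h hh _) (H.nonneg k hk _)
  bound := |G.bound| * |H.bound|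
  le_bound u hu := by
    have hc : Convex ℝ {f : C(K × L, ℝ) | ∀ s, f s ≤ |G.bound| * |H.bound|} := by
      intro f hf g hg a b ha hb hab s
      have h1 := mul_le_mul_of_nonneg_left (hf s) ha
      have h2 := mul_le_mul_of_nonneg_left (hg s) hb
      have h3 : a * (|G.bound| * |H.bound|) + b * (|G.bound| * |H.bound|)
          = |G.bound| * |H.bound| := by rw [← add_mul, hab, one_mul]
      simp only [ContinuousMap.add_apply, ContinuousMap.smul_apply, smul_eq_mul]
      linarith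
    refine convexHull_min ?_ hc hu
    rintro f ⟨h, hh, k, hk, rfl⟩ s
    exact mul_le_mul ((G.le_bound h hh _).trans (le_abs_self _))
      ((H.le_bound k hk _).trans (le_abs_self _)) (H.nonneg k hk _) (abs_nonneg _)

variable {G : GaugeSet K} {H : GaugeSet L}

lemma gnorm_mem_le {h : C(K, ℝ)} (hh : h ∈ G.D) : gnorm G h ≤ 1 :=
  gnorm_le zero_le_one hh fun s => by rw [one_mul, abs_of_nonneg (G.nonneg h hh s)]

lemma gnorm_tens_le (f : C(K, ℝ)) (g : C(L, ℝ)) :
    gnorm (prodGauge G H) (tens f g) ≤ gnorm G f * gnorm H g := by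
  have key : ∀ δ : ℝ, 0 < δ → gnorm (prodGauge G H) (tens f g)
      ≤ (gnorm G f + δ) * (gnorm H g + δ) := by
    intro δ hδ
    obtain ⟨r, hr, hr', h, hh, hf⟩ := exists_of_gnorm_lt
      (show gnorm G f < gnorm G f + δ by linarith)
    obtain ⟨t, ht, ht', k, hk, hg⟩ := exists_of_gnorm_lt
      (show gnorm H g < gnorm H g + δ by linarith)
    have h1 : gnorm (prodGauge G H) (tens f g) ≤ r * t := by
      refine gnorm_le (mul_nonneg hr ht)
        (subset_convexHull ℝ _ ⟨h, hh, k, hk, rfl⟩) fun s => ?_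
      rw [tens_apply, tens_apply, abs_mul]
      calc |f s.1| * |g s.2| ≤ (r * h s.1) * (t * k s.2) :=
            mul_le_mul (hf _) (hg _) (abs_nonneg _) (mul_nonneg hr (G.nonneg h hh _))
        _ = r * t * (h s.1 * k s.2) := by ring
    exact h1.trans (mul_le_mul hr'.le ht'.le ht (by linarith))
  have hlim : Filter.Tendsto (fun n : ℕ => (gnorm G f + 1 / ((n : ℝ) + 1))
      * (gnorm H g + 1 / ((n : ℝ) + 1))) Filter.atTop (nhds (gnorm G f * gnorm H g)) := by
    have h0 := tendsto_one_div_add_atTop_nhds_zero_nat (𝕜 := ℝ)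
    have h1 := (tendsto_const_nhds (x := gnorm G f)).add h0
    have h2 := (tendsto_const_nhds (x := gnorm H g)).add h0
    rw [add_zero] at h1 h2
    exact h1.mul h2
  exact ge_of_tendsto' hlim fun n => key _ (by positivity)

/-- A fine finite partition of unity for a continuous map on a compact Hausdorff space. -/
lemma exists_partition [T2Space K] {M : Type*} [PseudoMetricSpace M] (F : C(K, M)) {δ : ℝ}
    (hδ : 0 < δ) : ∃ (n : ℕ) (χ : Fin n → C(K, ℝ)) (x : Fin n → K), (∀ j s, 0 ≤ χ j s) ∧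
      (∀ s, ∑ j, χ j s = 1) ∧ ∀ j s, χ j s ≠ 0 → dist (F s) (F (x j)) < δ := by
  let U : K → Set K := fun x => {s | dist (F s) (F x) < δ}
  have hU : ∀ x, IsOpen (U x) := fun x => isOpen_lt (by fun_prop) continuous_const
  obtain ⟨t, ht⟩ := isCompact_univ.elim_finite_subcover U hU
    (fun s _ => Set.mem_iUnion.mpr ⟨s, by show dist (F s) (F s) < δ; rwa [dist_self]⟩)
  let x : Fin t.card → K := fun j => (t.equivFin.symm j : K)
  obtain ⟨χ, h1, h2, h3, -⟩ := exists_continuous_sum_one_of_isOpen_isCompact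
    (s := fun j => U (x j)) (fun j => hU _) isCompact_univ (fun s hs => by
      obtain ⟨y, hy⟩ := Set.mem_iUnion.mp (ht hs)
      obtain ⟨hyt, hy'⟩ := Set.mem_iUnion.mp hy
      refine Set.mem_iUnion.mpr ⟨t.equivFin ⟨y, hyt⟩, ?_⟩
      simpa [x] using hy')
  refine ⟨t.card, χ, x, fun j s => (h3 j s).1, fun s => ?_, fun j s hs => ?_⟩
  · have := h2 (Set.mem_univ s)
    simpa using this
  · exact h1 j (subset_tsupport _ hs)

variable {Z : Type*} [BanachLattice Z]

/-- Positive bilinear maps are positive on the algebraic tensor product. -/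
lemma lift_nonneg [T2Space K] (B : C(K, ℝ) →ₗ[ℝ] C(L, ℝ) →ₗ[ℝ] Z) {C : ℝ} (hC : 0 ≤ C)
    (hB : ∀ f g, ‖B f g‖ ≤ C * ‖f‖ * ‖g‖)
    (hpos : ∀ f g, (∀ s, 0 ≤ f s) → (∀ s, 0 ≤ g s) → 0 ≤ B f g)
    (u : C(K, ℝ) ⊗[ℝ] C(L, ℝ)) (hu : ∀ p, 0 ≤ iota u p) : 0 ≤ TensorProduct.lift B u := by
  obtain ⟨S, rfl⟩ := TensorProduct.exists_finset u
  have key : ∀ δ : ℝ, 0 < δ → ∃ z : Z, 0 ≤ z ∧
      ‖TensorProduct.lift B (∑ i ∈ S, i.1 ⊗ₜ[ℝ] i.2) - z‖ ≤ δ * (C * ∑ i ∈ S, ‖i.2‖) := by
    intro δ hδ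
    let F : C(K, S → ℝ) := ⟨fun s i => i.1.1 s, by fun_prop⟩
    obtain ⟨n, χ, x, h1, h2, h3⟩ := exists_partition F hδ
    have hslice : ∀ j t, 0 ≤ (∑ i ∈ S, i.1 (x j) • i.2) t := by
      intro j t
      have := hu (x j, t)
      rw [map_sum] at this
      simpa [ContinuousMap.sum_apply] using this
    refine ⟨∑ j, B (χ j) (∑ i ∈ S, i.1 (x j) • i.2),
      Finset.sum_nonneg fun j _ => hpos _ _ (h1 j) (hslice j), ?_⟩
    have e1 : ∑ j, B (χ j) (∑ i ∈ S, i.1 (x j) • i.2)
        = ∑ i ∈ S, B (∑ j, i.1 (x j) • χ j) i.2 := by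
      simp only [map_sum, map_smul, LinearMap.sum_apply, LinearMap.smul_apply]
      rw [Finset.sum_comm]
    rw [e1, map_sum, ← Finset.sum_sub_distrib]
    refine (norm_sum_le _ _).trans ?_
    rw [Finset.mul_sum, Finset.mul_sum]
    refine Finset.sum_le_sum fun i hi => ?_
    rw [TensorProduct.lift.tmul, ← LinearMap.sub_apply, ← map_sub]
    have h4 : ‖i.1 - ∑ j, i.1 (x j) • χ j‖ ≤ δ := by
      rw [ContinuousMap.norm_le _ hδ.le]
      intro s
      have e2 : (i.1 - ∑ j, i.1 (x j) • χ j) s = ∑ j, (i.1 s - i.1 (x j)) * χ j s := by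
        simp only [ContinuousMap.sub_apply, ContinuousMap.sum_apply, ContinuousMap.smul_apply,
          smul_eq_mul, sub_mul, Finset.sum_sub_distrib]
        rw [← Finset.mul_sum, h2 s, mul_one]
      rw [e2]
      refine (norm_sum_le _ _).trans ?_
      calc ∑ j, ‖(i.1 s - i.1 (x j)) * χ j s‖ ≤ ∑ j, δ * χ j s := by
            refine Finset.sum_le_sum fun j _ => ?_
            by_cases h0 : χ j s = 0
            · simp [h0]
            · rw [norm_mul, Real.norm_of_nonneg (h1 j s)]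
              refine mul_le_mul_of_nonneg_right ?_ (h1 j s)
              have h5 := h3 j s h0
              have h6 := dist_le_pi_dist (F s) (F (x j)) ⟨i, hi⟩
              rw [Real.dist_eq] at h6
              exact h6.trans h5.le
        _ = δ := by rw [← Finset.mul_sum, h2 s, mul_one]
    calc _ ≤ C * ‖i.1 - ∑ j, i.1 (x j) • χ j‖ * ‖i.2‖ := hB _ _
      _ ≤ C * δ * ‖i.2‖ := by gcongr
      _ = δ * (C * ‖i.2‖) := by ring
  have hcl : IsClosed {z : Z | 0 ≤ z} := isClosed_Ici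
  set w := TensorProduct.lift B (∑ i ∈ S, i.1 ⊗ₜ[ℝ] i.2) with hw
  have : w ∈ closure {z : Z | 0 ≤ z} := by
    rw [Metric.mem_closure_iff]
    intro ε hε
    have hM : 0 ≤ C * ∑ i ∈ S, ‖i.2‖ := mul_nonneg hC (Finset.sum_nonneg fun _ _ => norm_nonneg _)
    obtain ⟨z, hz, hz'⟩ := key (ε / (C * ∑ i ∈ S, ‖i.2‖ + 1)) (by positivity)
    refine ⟨z, hz, ?_⟩
    rw [dist_eq_norm]
    refine hz'.trans_lt ?_
    rw [div_mul_eq_mul_div, div_lt_iff₀ (by positivity)]
    nlinarith
  rwa [hcl.closure_eq] at this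

/-- The algebraic tensor product is dense in the continuous functions on the product. -/
lemma iota_dense [T2Space K] : DenseRange (iota : C(K, ℝ) ⊗[ℝ] C(L, ℝ) →ₗ[ℝ] C(K × L, ℝ)) := by
  intro w
  rw [Metric.mem_closure_iff]
  intro ε hε
  obtain ⟨n, χ, x, h1, h2, h3⟩ := exists_partition (ContinuousMap.curry w) (half_pos hε)
  refine ⟨_, ⟨∑ j, χ j ⊗ₜ[ℝ] (ContinuousMap.curry w (x j)), rfl⟩, ?_⟩
  rw [dist_eq_norm]
  refine lt_of_le_of_lt ?_ (half_lt_self hε)
  rw [ContinuousMap.norm_le _ (half_pos hε).le]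
  rintro ⟨s, t⟩
  have e : (w - iota (∑ j, χ j ⊗ₜ[ℝ] (ContinuousMap.curry w (x j)))) (s, t)
      = ∑ j, (ContinuousMap.curry w s t - ContinuousMap.curry w (x j) t) * χ j s := by
    rw [map_sum, ContinuousMap.sub_apply, ContinuousMap.sum_apply]
    simp only [iota_tmul, tens_apply, sub_mul, Finset.sum_sub_distrib, ContinuousMap.curry_apply]
    rw [← Finset.mul_sum, h2 s, mul_one]
    congr 1
    exact Finset.sum_congr rfl fun j _ => mul_comm _ _
  rw [e]
  refine (norm_sum_le _ _).trans ?_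
  calc ∑ j, ‖(ContinuousMap.curry w s t - ContinuousMap.curry w (x j) t) * χ j s‖
      ≤ ∑ j, ε / 2 * χ j s := by
        refine Finset.sum_le_sum fun j _ => ?_
        by_cases h0 : χ j s = 0
        · simp [h0]
        · rw [norm_mul, Real.norm_of_nonneg (h1 j s)]
          refine mul_le_mul_of_nonneg_right ?_ (h1 j s)
          have h5 := h3 j s h0
          rw [dist_eq_norm] at h5
          exact ((ContinuousMap.curry w s - ContinuousMap.curry w (x j)).norm_coe_le_norm t).trans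
            h5.le
    _ = ε / 2 := by rw [← Finset.mul_sum, h2 s, mul_one]

variable (G H)

/-- the canonical bilinear map into the tensor product -/
noncomputable def tB : GC G →L[ℝ] GC H →L[ℝ] GC (prodGauge G H) :=
  LinearMap.mkContinuous₂
    (LinearMap.mk₂ ℝ (fun f g => toGC (prodGauge G H) (tens (toC G f) (toC H g)))
      (fun f f' g => by
        rw [← map_add (toGC _)]
        refine congrArg (toGC _) (ContinuousMap.ext fun p => ?_)
        simp [add_mul])
      (fun c f g => by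
        rw [← map_smul (toGC _)]
        refine congrArg (toGC _) (ContinuousMap.ext fun p => ?_)
        simp [mul_assoc])
      (fun f g g' => by
        rw [← map_add (toGC _)]
        refine congrArg (toGC _) (ContinuousMap.ext fun p => ?_)
        simp [mul_add])
      (fun c f g => by
        rw [← map_smul (toGC _)]
        refine congrArg (toGC _) (ContinuousMap.ext fun p => ?_)
        simp; ring)) 1
    (fun f g => by
      rw [one_mul]
      exact gnorm_tens_le (toC G f) (toC H g))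

lemma tB_apply (f : GC G) (g : GC H) :
    tB G H f g = toGC (prodGauge G H) (tens (toC G f) (toC H g)) := rfl

/-- `GC (prodGauge G H)` is the Fremlin tensor product of `GC G` and `GC H`. -/
theorem isFremlinCurried {K L : Type} [TopologicalSpace K] [CompactSpace K] [T2Space K]
    [TopologicalSpace L] [CompactSpace L] (G : GaugeSet K) (H : GaugeSet L) :
    IsFremlinCurried (tB G H) := by
  refine ⟨fun f g hf hg => ?_, ?_⟩
  · rw [toC_nonneg] at hf hg ⊢
    rw [tB_apply, toC_toGC]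
    exact fun p => mul_nonneg (hf _) (hg _)
  intro Z _ φ hφ
  -- the bilinear map on continuous functions
  let B : C(K, ℝ) →ₗ[ℝ] C(L, ℝ) →ₗ[ℝ] Z :=
    LinearMap.mk₂ ℝ (fun f g => φ (toGC G f) (toGC H g))
      (fun f f' g => by simp) (fun c f g => by simp) (fun f g g' => by simp)
      (fun c f g => by simp)
  have hBapp : ∀ f g, B f g = φ (toGC G f) (toGC H g) := fun _ _ => rfl
  have hB : ∀ f g, ‖B f g‖ ≤ ‖φ‖ * ‖f‖ * ‖g‖ := fun f g => by
    rw [hBapp]
    refine (φ.le_opNorm₂ _ _).trans ?_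
    have h1 : ‖toGC G f‖ ≤ ‖f‖ := gnorm_le_norm f
    have h2 : ‖toGC H g‖ ≤ ‖g‖ := gnorm_le_norm g
    gcongr
  have hBpos : ∀ f g, (∀ s, 0 ≤ f s) → (∀ s, 0 ≤ g s) → 0 ≤ B f g := fun f g hf hg =>
    hφ _ _ (toC_nonneg.mpr hf) (toC_nonneg.mpr hg)
  have hlift := lift_nonneg B (norm_nonneg φ) hB hBpos
  set Φ := TensorProduct.lift B with hΦ
  have hΦ1 : Φ (1 ⊗ₜ[ℝ] 1) = B 1 1 := by rw [hΦ, TensorProduct.lift.tmul]
  -- order bound
  have hle : ∀ (u : C(K, ℝ) ⊗[ℝ] C(L, ℝ)) (c : ℝ), (∀ p, iota u p ≤ c) →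
      Φ u ≤ c • B 1 1 := by
    intro u c hu
    rw [← sub_nonneg, ← hΦ1, ← map_smul, ← map_sub]
    refine hlift _ fun p => ?_
    rw [map_sub, map_smul, iota_tmul]
    have := hu p
    simpa using this
  have habs : ∀ u : C(K, ℝ) ⊗[ℝ] C(L, ℝ), |Φ u| ≤ ‖(iota u : C(K × L, ℝ))‖ • B 1 1 := by
    intro u
    apply abs_le'.mpr ⟨?_, ?_⟩
    · exact hle _ _ fun p => (le_abs_self _).trans ((iota u).norm_coe_le_norm p)
    · rw [← map_neg]
      refine hle _ _ fun p => ?_
      rw [map_neg]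
      exact (neg_le_abs _).trans ((iota u).norm_coe_le_norm p)
  have hbd : ∀ u : C(K, ℝ) ⊗[ℝ] C(L, ℝ), ‖Φ u‖ ≤ ‖B 1 1‖ * ‖(iota u : C(K × L, ℝ))‖ := by
    intro u
    have h1 : ‖Φ u‖ ≤ ‖‖(iota u : C(K × L, ℝ))‖ • B 1 1‖ :=
      norm_le_norm_of_abs_le_abs ((habs u).trans (le_abs_self _))
    rwa [norm_smul, norm_norm, mul_comm] at h1
  have hdense : DenseRange (iota : C(K, ℝ) ⊗[ℝ] C(L, ℝ) →ₗ[ℝ] C(K × L, ℝ)) := iota_dense
  -- the extension to all continuous functions on the product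
  set T₀ : C(K × L, ℝ) →L[ℝ] Z := Φ.extendOfNorm iota with hT₀
  have hT₀u : ∀ u, T₀ (iota u) = Φ u := fun u =>
    LinearMap.extendOfNorm_eq hdense ⟨_, hbd⟩ u
  have hT₀t : ∀ f g, T₀ (tens f g) = φ (toGC G f) (toGC H g) := fun f g => by
    rw [← iota_tmul, hT₀u, hΦ, TensorProduct.lift.tmul]; rfl
  have hT₀pos : ∀ w : C(K × L, ℝ), (∀ p, 0 ≤ w p) → 0 ≤ T₀ w := by
    intro w hw
    have hcl : IsClosed {z : Z | 0 ≤ z} := isClosed_Ici
    have : T₀ w ∈ closure {z : Z | 0 ≤ z} := by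
      rw [Metric.mem_closure_iff]
      intro ε hε
      set c := ‖T₀‖ with hc
      have hc0 : 0 ≤ c := by rw [hc]; exact norm_nonneg T₀
      obtain ⟨_, ⟨u, rfl⟩, hu⟩ := Metric.mem_closure_iff.mp (hdense w) (ε / (2 * (c + 1)))
        (by positivity)
      set δ := ‖w - iota u‖ with hδ
      rw [dist_eq_norm] at hu
      refine ⟨Φ (u + δ • ((1 : C(K, ℝ)) ⊗ₜ[ℝ] (1 : C(L, ℝ)))), hlift _ fun p => ?_, ?_⟩
      · rw [map_add, map_smul, iota_tmul]
        have h1 := (w - iota u).norm_coe_le_norm p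
        have h2 := (abs_le.mp h1).2
        have h3 := hw p
        simp only [ContinuousMap.sub_apply] at h2
        simp only [ContinuousMap.add_apply, ContinuousMap.smul_apply, tens_apply,
          ContinuousMap.one_apply, smul_eq_mul, mul_one]
        linarith
      · rw [dist_eq_norm, ← hT₀u, ← map_sub]
        have h1 : ‖w - iota (u + δ • ((1 : C(K, ℝ)) ⊗ₜ[ℝ] (1 : C(L, ℝ))))‖ ≤ 2 * δ := by
          rw [map_add, map_smul, iota_tmul, ← sub_sub]
          refine (norm_sub_le _ _).trans ?_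
          have h2 : ‖δ • (tens (1 : C(K, ℝ)) (1 : C(L, ℝ)))‖ ≤ δ := by
            rw [norm_smul, Real.norm_of_nonneg (norm_nonneg _)]
            have h3 : ‖tens (1 : C(K, ℝ)) (1 : C(L, ℝ))‖ ≤ 1 := by
              rw [ContinuousMap.norm_le _ zero_le_one]
              intro p; simp
            calc _ ≤ δ * 1 := mul_le_mul_of_nonneg_left h3 (norm_nonneg _)
              _ = δ := mul_one _
          linarith
        calc _ ≤ c * ‖w - iota (u + δ • ((1 : C(K, ℝ)) ⊗ₜ[ℝ] (1 : C(L, ℝ))))‖ := T₀.le_opNorm _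
          _ ≤ c * (2 * δ) := mul_le_mul_of_nonneg_left h1 hc0
          _ ≤ (c + 1) * (2 * δ) := by
            have : 0 ≤ δ := norm_nonneg _
            nlinarith
          _ < (c + 1) * (2 * (ε / (2 * (c + 1)))) := by
            apply mul_lt_mul_of_pos_left _ (by linarith)
            linarith
          _ = ε := by
            field_simp
    rwa [hcl.closure_eq] at this
  have hD : ∀ w ∈ (prodGauge G H).D, ‖T₀ w‖ ≤ ‖φ‖ := by
    intro w hw
    have hc : Convex ℝ {w : C(K × L, ℝ) | ‖T₀ w‖ ≤ ‖φ‖} := by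
      have : {w : C(K × L, ℝ) | ‖T₀ w‖ ≤ ‖φ‖}
          = (T₀ : C(K × L, ℝ) →ₗ[ℝ] Z) ⁻¹' (Metric.closedBall 0 ‖φ‖) := by
        ext f; simp
      rw [this]
      exact (convex_closedBall 0 _).linear_preimage (T₀ : C(K × L, ℝ) →ₗ[ℝ] Z)
    refine convexHull_min ?_ hc hw
    rintro _ ⟨h, hh, k, hk, rfl⟩
    show ‖T₀ _‖ ≤ _
    rw [hT₀t]
    refine (φ.le_opNorm₂ _ _).trans ?_
    have h1 : ‖toGC G h‖ ≤ 1 := gnorm_mem_le hh
    have h2 : ‖toGC H k‖ ≤ 1 := gnorm_mem_le hk
    calc ‖φ‖ * ‖toGC G h‖ * ‖toGC H k‖ ≤ ‖φ‖ * 1 * 1 := by gcongr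
      _ = ‖φ‖ := by ring
  have hφ0 : 0 ≤ ‖φ‖ := norm_nonneg φ
  have hbound : ∀ w : GC (prodGauge G H),
      ‖((T₀ : C(K × L, ℝ) →ₗ[ℝ] Z) ∘ₗ (toC _).toLinearMap) w‖ ≤ ‖φ‖ * ‖w‖ := fun w =>
    norm_le_of_positive (T₀ : C(K × L, ℝ) →ₗ[ℝ] Z) hT₀pos hφ0 hD (toC _ w)
  set T : GC (prodGauge G H) →L[ℝ] Z :=
    LinearMap.mkContinuous ((T₀ : C(K × L, ℝ) →ₗ[ℝ] Z) ∘ₗ (toC _).toLinearMap) _ hbound with hT
  have hTapp : ∀ w, T (toGC _ w) = T₀ w := fun w => rfl
  have hTφ : ∀ x y, T (tB G H x y) = φ x y := fun x y => by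
    rw [tB_apply, hTapp, hT₀t, toGC_toC, toGC_toC]
  refine ⟨T, ⟨fun w hw => ?_, hTφ, ?_⟩, ?_⟩
  · have := hT₀pos (toC _ w) (toC_nonneg.mp hw)
    exact this
  · apply le_antisymm
    · exact LinearMap.mkContinuous_norm_le _ hφ0 _
    · refine ContinuousLinearMap.opNorm_le_bound₂ _ (norm_nonneg _) fun x y => ?_
      rw [← hTφ]
      refine (T.le_opNorm _).trans ?_
      have h1 : ‖tB G H x y‖ ≤ ‖x‖ * ‖y‖ := gnorm_tens_le _ _
      calc ‖T‖ * ‖tB G H x y‖ ≤ ‖T‖ * (‖x‖ * ‖y‖) := by gcongr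
        _ = ‖T‖ * ‖x‖ * ‖y‖ := by ring
  · intro T' _ hT'
    have h1 : ∀ w : C(K × L, ℝ), T' (toGC _ w) = T (toGC _ w) := by
      intro w
      have hc1 : Continuous fun w : C(K × L, ℝ) => T' (toGC (prodGauge G H) w) := by fun_prop
      have hc2 : Continuous fun w : C(K × L, ℝ) => T (toGC (prodGauge G H) w) := by fun_prop
      refine hdense.induction_on (p := fun w => T' (toGC (prodGauge G H) w)
        = T (toGC (prodGauge G H) w)) w (isClosed_eq hc1 hc2) fun u => ?_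
      induction u using TensorProduct.induction_on with
      | zero => simp
      | tmul f g =>
        have h2 := (hT' (toGC G f) (toGC H g)).trans (hTφ (toGC G f) (toGC H g)).symm
        exact h2
      | add u v hu hv => rw [map_add, map_add, map_add, map_add, hu, hv]
    ext w
    exact h1 (toC _ w)

end Pool.Agent.H27.Fremlin
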