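import Pool.Agent.H27.Fremlin.Bilin

/-!
# Uniqueness of the Fremlin tensor product, and transfer of projectivity
-/

namespace Pool.Agent.H27.Fremlin

lemma sup_of_inverse {E F : Type*} [BanachLattice E] [BanachLattice F] (T : E →L[ℝ] F)
    (S : F →L[ℝ] E) (hT : ∀ u, 0 ≤ u → 0 ≤ T u) (hS : ∀ u, 0 ≤ u → 0 ≤ S u)
    (h1 : ∀ u, S (T u) = u) (h2 : ∀ u, T (S u) = u) : IsLatticeHom T := by
  have mT : ∀ u v, u ≤ v → T u ≤ T v := fun u v h => by
    have := hT _ (sub_nonneg.mpr h)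
    rwa [map_sub, sub_nonneg] at this
  have mS : ∀ u v, u ≤ v → S u ≤ S v := fun u v h => by
    have := hS _ (sub_nonneg.mpr h)
    rwa [map_sub, sub_nonneg] at this
  refine ⟨fun x y => le_antisymm ?_ ?_, fun x y => le_antisymm ?_ ?_⟩
  · have : x ⊔ y ≤ S (T x ⊔ T y) := sup_le (by
        have := mS _ _ (le_sup_left : T x ≤ T x ⊔ T y); rwa [h1] at this) (by
        have := mS _ _ (le_sup_right : T y ≤ T x ⊔ T y); rwa [h1] at this)
    have := mT _ _ this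
    rwa [h2] at this
  · exact sup_le (mT _ _ le_sup_left) (mT _ _ le_sup_right)
  · exact le_inf (mT _ _ inf_le_left) (mT _ _ inf_le_right)
  · have : S (T x ⊓ T y) ≤ x ⊓ y := le_inf (by
        have := mS _ _ (inf_le_left : T x ⊓ T y ≤ T x); rwa [h1] at this) (by
        have := mS _ _ (inf_le_right : T x ⊓ T y ≤ T y); rwa [h1] at this)
    have := mT _ _ this
    rwa [h2] at this

variable {X Y F F' : Type} [BanachLattice X] [BanachLattice Y] [BanachLattice F]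
  [BanachLattice F']

lemma IsFremlinCurried.norm_le_one {t : X →L[ℝ] Y →L[ℝ] F} (ht : IsFremlinCurried t) :
    ‖t‖ ≤ 1 := by
  obtain ⟨T, ⟨-, -, h3⟩, h4⟩ := ht.2 F t ht.1
  have h5 := h4 (ContinuousLinearMap.id ℝ F) (fun u hu => hu) (fun x y => rfl)
  rw [← h3, ← h5]
  exact ContinuousLinearMap.norm_id_le

/-- Two Fremlin tensor products of `X` and `Y` are isometrically lattice isomorphic. -/
lemma IsFremlinCurried.unique {t : X →L[ℝ] Y →L[ℝ] F} {t' : X →L[ℝ] Y →L[ℝ] F'}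
    (ht : IsFremlinCurried t) (ht' : IsFremlinCurried t') :
    ∃ (T : F →L[ℝ] F') (S : F' →L[ℝ] F), IsLatticeHom T ∧ IsLatticeHom S ∧
      (∀ u, S (T u) = u) ∧ (∀ u, T (S u) = u) ∧ ‖T‖ ≤ 1 ∧ ‖S‖ ≤ 1 := by
  obtain ⟨T, ⟨hT1, hT2, hT3⟩, -⟩ := ht.2 F' t' ht'.1
  obtain ⟨S, ⟨hS1, hS2, hS3⟩, -⟩ := ht'.2 F t ht.1
  obtain ⟨I, ⟨-, -, -⟩, hI⟩ := ht.2 F t ht.1
  obtain ⟨I', ⟨-, -, -⟩, hI'⟩ := ht'.2 F' t' ht'.1
  have h1 : S.comp T = ContinuousLinearMap.id ℝ F :=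
    (hI (S.comp T) (fun u hu => hS1 _ (hT1 _ hu)) (fun x y => by
      rw [ContinuousLinearMap.comp_apply, hT2, hS2])).trans
      (hI (ContinuousLinearMap.id ℝ F) (fun u hu => hu) (fun x y => rfl)).symm
  have h2 : T.comp S = ContinuousLinearMap.id ℝ F' :=
    (hI' (T.comp S) (fun u hu => hT1 _ (hS1 _ hu)) (fun x y => by
      rw [ContinuousLinearMap.comp_apply, hS2, hT2])).trans
      (hI' (ContinuousLinearMap.id ℝ F') (fun u hu => hu) (fun x y => rfl)).symm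
  have h1' : ∀ u, S (T u) = u := fun u => by
    rw [← ContinuousLinearMap.comp_apply, h1]; rfl
  have h2' : ∀ u, T (S u) = u := fun u => by
    rw [← ContinuousLinearMap.comp_apply, h2]; rfl
  exact ⟨T, S, sup_of_inverse T S hT1 hS1 h1' h2', sup_of_inverse S T hS1 hT1 h2' h1', h1', h2',
    by rw [hT3]; exact ht'.norm_le_one, by rw [hS3]; exact ht.norm_le_one⟩

/-- Projectivity passes to isometric lattice isomorphic copies. -/
lemma IsProjective.transfer (hF : IsProjective F) (T : F →L[ℝ] F') (S : F' →L[ℝ] F)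
    (hS : IsLatticeHom S) (hT : IsLatticeHom T)
    (h2 : ∀ u, T (S u) = u) (hT1 : ‖T‖ ≤ 1) (hS1 : ‖S‖ ≤ 1) : IsProjective F' := by
  intro E _ J hJ R hR ε hε
  obtain ⟨L, hL1, hL2, hL3⟩ := hF E J hJ (R.comp T) ⟨fun p q x y hp hq => by
    simp only [ContinuousLinearMap.comp_apply] at hp hq ⊢
    rw [hT.1]
    exact hR.1 _ _ _ _ hp hq, fun p q x y hp hq => by
    simp only [ContinuousLinearMap.comp_apply] at hp hq ⊢
    rw [hT.2]
    exact hR.2 _ _ _ _ hp hq⟩ ε hε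
  refine ⟨L.comp S, ⟨fun x y => ?_, fun x y => ?_⟩, fun p => ?_, ?_⟩
  · simp only [ContinuousLinearMap.comp_apply]
    rw [hS.1, hL1.1]
  · simp only [ContinuousLinearMap.comp_apply]
    rw [hS.2, hL1.2]
  · simp only [ContinuousLinearMap.comp_apply]
    rw [hL2, ContinuousLinearMap.comp_apply, h2]
  · have h3 : ‖R.comp T‖ ≤ ‖R‖ :=
      (R.opNorm_comp_le T).trans (by
        calc ‖R‖ * ‖T‖ ≤ ‖R‖ * 1 := mul_le_mul_of_nonneg_left hT1 (norm_nonneg R)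
          _ = ‖R‖ := mul_one _)
    calc ‖L.comp S‖ ≤ ‖L‖ * ‖S‖ := L.opNorm_comp_le S
      _ ≤ ‖L‖ * 1 := mul_le_mul_of_nonneg_left hS1 (norm_nonneg _)
      _ = ‖L‖ := mul_one _
      _ ≤ (1 + ε) * ‖R.comp T‖ := hL3
      _ ≤ (1 + ε) * ‖R‖ := mul_le_mul_of_nonneg_left h3 (by linarith)

end Pool.Agent.H27.Fremlin
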